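import Pool.Agent.V7H68.HZ.Loc
import Pool.Agent.V7H68.UF.Geo

/-!
Functions given by their zooms, and measurability.
-/

namespace Pool.Agent.V7H68.HZ

open Finset Real MeasureTheory SS MS UF Filter
open scoped ENNReal

set_option linter.unusedSectionVars false

variable {ι : Type} [Fintype ι] [DecidableEq ι] {b : ℕ}

theorem zm_one_zm {k : ℕ} (z : ι → ℕ) (g : (ι → ℝ) → ι → ℝ) :
    zm 1 0 (zm (b ^ k) z g) = zm (b ^ k) z g :=
  zm_one (zm_zero _ _ _) (fun _ hu => zm_of_not_mem hu) (fun _ => by simp)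

theorem zm_zm_one (hb : 0 < b) {g : (ι → ℝ) → ι → ℝ} (k : ℕ) (z : ι → ℕ) (hz : ∀ i, z i < b ^ k) :
    zm (b ^ k) z (zm 1 0 g) = zm (b ^ k) z g := by
  rw [zm_zm one_pos (by positivity) 0 z hz, one_mul]
  congr 1
  funext i
  simp

/-- A function is measurable if almost every point is in a cell on which it is. -/
theorem meas_of_cells (hb : 2 ≤ b) {g : (ι → ℝ) → ι → ℝ}
    (h : ∀ᵐ v ∂(volume.restrict (cube ι)), ∃ x : St ι, (∀ i, x.2 i < b ^ x.1) ∧ v ∈ cell b x ∧
      Measurable (zm (b ^ x.1) x.2 g)) : AEMeasurable g (volume.restrict (cube ι)) := by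
  have hbp : 0 < b := by omega
  have hb0 : (0:ℝ) < b := by exact_mod_cast hbp
  set S : Set (St ι) := {x | (∀ i, x.2 i < b ^ x.1) ∧ Measurable (zm (b ^ x.1) x.2 g)} with hS
  have h1 : AEMeasurable g (volume.restrict (⋃ x : S, cell b x.1)) := by
    rw [aemeasurable_iUnion_iff]
    rintro ⟨x, hx1, hx2⟩
    have hNc : ((b ^ x.1 : ℕ) : ℝ) = (b:ℝ) ^ x.1 := by push_cast; rfl
    set N : ℝ := (b:ℝ) ^ x.1 with hN
    have hN0 : 0 < N := by positivity
    have h2 : Measurable fun v : ι → ℝ => N⁻¹ • zm (b ^ x.1) x.2 g (fun i => N * v i - x.2 i) +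
        g (N⁻¹ • nv x.2) := by
      have h4 : Measurable fun v : ι → ℝ => (fun i => N * v i - (x.2 i : ℝ)) := by
        refine measurable_pi_lambda _ fun i => ?_
        exact ((measurable_pi_apply i).const_mul _).sub_const _
      exact Measurable.add_const ((hx2.comp h4).const_smul N⁻¹) _
    refine ⟨_, h2, ?_⟩
    rw [Filter.EventuallyEq, ae_restrict_iff' (cell_meas hbp x)]
    refine Filter.Eventually.of_forall fun v hv => ?_
    have hv' : (fun i => N * v i - x.2 i) ∈ cube ι := hv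
    rw [zm_of_mem hv', hNc, smul_smul, inv_mul_cancel₀ hN0.ne', one_smul]
    have h3 : N⁻¹ • (nv x.2 + fun i => N * v i - (x.2 i : ℝ)) = v := by
      funext i
      simp only [Pi.smul_apply, Pi.add_apply, nv, smul_eq_mul]
      field_simp
      ring
    rw [h3, sub_add_cancel]
  have h2 : volume.restrict (cube ι) ≤ volume.restrict (⋃ x : S, cell b x.1) := by
    refine Measure.restrict_mono_ae ?_
    have h3 := (ae_restrict_iff' cube_meas).1 h
    filter_upwards [h3] with v hv hvc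
    obtain ⟨x, hx1, hx2, hx3⟩ := hv hvc
    exact Set.mem_iUnion.2 ⟨⟨x, hx1, hx3⟩, hx2⟩
  exact h1.mono_measure h2

end Pool.Agent.V7H68.HZ
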