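import Pool.Agent.V7H68.HZ.Img2
import Pool.Agent.V7H68.HZ.Fin

/-!
Functions given by their zooms: the version with coverings.
-/

namespace Pool.Agent.V7H68.HZ

open Finset Real MeasureTheory SS MS UF Filter
open scoped ENNReal

set_option linter.unusedSectionVars false

variable {ι : Type} [Fintype ι] [DecidableEq ι] {b : ℕ}

theorem bz_of_zooms (hb : 2 ≤ b) {R : ℝ} {g : (ι → ℝ) → ι → ℝ}
    (h1 : ∀ (k : ℕ) (z : ι → ℕ), (∀ i, z i < b ^ k) → ∀ y ∈ cube ι, ‖zm (b ^ k) z g y‖ ≤ R) :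
    Bz b R (zm 1 0 g) := by
  have hR0 : 0 ≤ R := (norm_nonneg _).trans (h1 0 0 (fun i => by simp) 0 zero_mem_cube)
  have hbd : ∀ (k : ℕ) (z : ι → ℕ), (∀ i, z i < b ^ k) → ∀ u,
      ‖zm (b ^ k) z (zm 1 0 g) u‖ ≤ R := by
    intro k z hz u
    rw [zm_zm_one (by omega) k z hz]
    by_cases hu : u ∈ cube ι
    · exact h1 k z hz u hu
    · rw [zm_of_not_mem hu, norm_zero]
      exact hR0
  exact ⟨meas_of_bdd hb (fun u hu => zm_of_not_mem hu) hbd, fun u hu => zm_of_not_mem hu,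
    zm_zero _ _ _, hbd⟩

theorem imgOK2_of_zooms [Nonempty ι] (hb : 2 ≤ b) {R h : ℝ} (hh : 0 ≤ h)
    {g : (ι → ℝ) → ι → ℝ} (d : ℕ)
    (h1 : ∀ (k : ℕ) (z : ι → ℕ), (∀ i, z i < b ^ k) → ∀ y ∈ cube ι, ‖zm (b ^ k) z g y‖ ≤ R)
    (h2 : ∀ ε : ℝ, 0 < ε → ∃ᶠ j : ℕ in atTop, CovAt b d (Cd (Fintype.card ι) d) j g ∧
      RelAt b (Cd (Fintype.card ι) d) j (h + ε) g) : ImgOK (Fintype.card ι - h) (zm 1 0 g) := by
  intro F hF
  refine images2 hb hh (bz_of_zooms hb h1) d (fun ε hε => ?_) hF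
  refine (h2 ε hε).mono ?_
  rintro j ⟨hj1, hj2⟩
  refine ⟨?_, fun k z hz => ?_⟩
  · obtain ⟨N, hN1, hN2⟩ := hj1
    refine ⟨N, hN1, fun k z hz => ?_⟩
    obtain ⟨φ, hφ, hφ2⟩ := hN2 k z hz
    refine ⟨φ, hφ, fun y hy => ?_⟩
    rw [zm_zm_one (by omega) k z hz]
    exact hφ2 y hy
  · obtain ⟨s, hs1, hs2⟩ := hj2 k z hz
    refine ⟨s, hs1, fun y hy => ?_⟩
    obtain ⟨φ, hφ, hφ2⟩ := hs2 y hy
    refine ⟨φ, hφ, fun u hu => ?_⟩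
    rw [zm_zm_one (by omega) (k + j) _ (low_lt hz hy)]
    exact hφ2 u hu

end Pool.Agent.V7H68.HZ
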