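import Pool.Agent.V7H68.UF.Gain

/-!
One parameter and a class of functions that is closed under zooms: the smallest entropy rate.
-/

namespace Pool.Agent.V7H68.HZ

open Finset Real MeasureTheory SS MS UF

set_option linter.unusedSectionVars false

variable {ι : Type} [Fintype ι] [DecidableEq ι] {b : ℕ}

/-- A class of functions with bounded zooms, closed under zooms. -/
structure Zc (b : ℕ) (R : ℝ) (C : Set ((ι → ℝ) → ι → ℝ)) : Prop where
  bz : ∀ Z ∈ C, Bz b R Z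
  zoom : ∀ Z ∈ C, ∀ (q : ℕ) (z : ι → ℕ), (∀ i, z i < b ^ q) → zm (b ^ q) z Z ∈ C

/-- No restriction on the number of zooms. -/
def p0 (b : ℕ) (ι : Type) [Fintype ι] (k : ℕ) : ℕ := (b ^ k) ^ Fintype.card ι

variable {R t τ : ℝ} {Z : (ι → ℝ) → ι → ℝ} {I : Finset ι} {P : (ι → ℝ) →ₗ[ℝ] (ι → ℝ)}

theorem inst_triv (hb : 0 < b) (hZ : Bz b R Z) (ht : |t| ≤ 1) (hP : Adm I P) (A n : ℕ) :
    Inst b R (p0 b ι) A (fun _ => 1) n Z {t} (fun _ => 1) (fun _ => I) (fun _ => P) := by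
  refine ⟨⟨hZ, fun q z hz k => ?_⟩, fun s hs => ?_, fun _ _ => zero_le_one, by simp,
    fun s _ => hP, fun k l z hkl hz => ?_⟩
  · have h1 : (Set.range fun w : ι → Fin (b ^ k) => zm (b ^ k) (dv w) (zm (b ^ q) z Z)).ncard ≤
        Nat.card (ι → Fin (b ^ k)) := by
      rw [← Set.image_univ, ← Set.ncard_univ]
      exact Set.ncard_image_le Set.finite_univ
    refine h1.trans (le_of_eq ?_)
    rw [Nat.card_eq_fintype_card, Fintype.card_pi]
    simp [p0]
  · rw [Finset.mem_singleton] at hs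
    rw [hs]
    exact ht
  · rw [Finset.sum_singleton, one_mul]
    by_cases h : t ∈ bdn b (zm (b ^ k) z Z) A l
    · rw [Set.indicator_of_mem h]
      exact le_rfl
    · rw [Set.indicator_of_notMem h]
      exact zero_le_one

/-- The value of a function and a projection. -/
noncomputable def Ee (b : ℕ) (t τ : ℝ) (n : ℕ) (Z : (ι → ℝ) → ι → ℝ) (I : Finset ι)
    (P : (ι → ℝ) →ₗ[ℝ] (ι → ℝ)) : ℝ :=
  En b (pf P Z t) n + I.card * n * (log b - τ)

theorem Psi_single (b : ℕ) (t τ : ℝ) (n : ℕ) (Z : (ι → ℝ) → ι → ℝ) (I : Finset ι)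
    (P : (ι → ℝ) →ₗ[ℝ] (ι → ℝ)) :
    Psi b τ n Z {t} (fun _ => 1) (fun _ => I) (fun _ => P) = Ee b t τ n Z I P := by
  unfold Psi Ee
  rw [Finset.sum_singleton, one_mul]

theorem Ee_super [NeZero b] (hb : 0 < b) (hZ : Bz b R Z) (ht : |t| ≤ 1) (hP : Adm I P) (τ : ℝ)
    (k l : ℕ) : Ee b t τ k Z I P + av (fun w : ι → Fin (b ^ k) =>
      Ee b t τ l (zm (b ^ k) (dv w) Z) I P) - C0 ι (R2 ι R) ≤ Ee b t τ (k + l) Z I P := by
  have h1 := (inst_triv hb hZ ht hP 0 0).super hb τ k l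
  simp only [Psi_single] at h1
  exact h1

theorem Ee_nonneg (hb : 0 < b) (hZ : Bz b R Z) (ht : |t| ≤ 1) (hP : Adm I P)
    (hτ : τ ≤ log b) (k : ℕ) : 0 ≤ Ee b t τ k Z I P := by
  have h1 := (inst_triv hb hZ ht hP 0 0).Psi_nonneg hb hτ k
  rwa [Psi_single] at h1

/-- The possible values, and the trivial upper bound. -/
def Vals2 (b : ℕ) (t τ : ℝ) (C : Set ((ι → ℝ) → ι → ℝ)) (n : ℕ) : Set ℝ :=
  {x | x = n * (Fintype.card ι * log b) ∨ ∃ Z ∈ C, ∃ (I : Finset ι)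
    (P : (ι → ℝ) →ₗ[ℝ] (ι → ℝ)), Adm I P ∧ x = Ee b t τ n Z I P}

/-- The smallest value. -/
noncomputable def psi2 (b : ℕ) (t τ : ℝ) (C : Set ((ι → ℝ) → ι → ℝ)) (n : ℕ) : ℝ :=
  sInf (Vals2 b t τ C n)

variable {C : Set ((ι → ℝ) → ι → ℝ)}

theorem Zc.vals_bdd (hC : Zc b R C) (hb : 0 < b) (ht : |t| ≤ 1) (hτ : τ ≤ log b) (n : ℕ) :
    ∀ x ∈ Vals2 b t τ C n, 0 ≤ x := by
  have hb1 : (1:ℝ) ≤ b := by exact_mod_cast hb
  have := Real.log_nonneg hb1
  rintro x (rfl | ⟨Z, hZ, I, P, hP, rfl⟩)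
  · positivity
  · exact Ee_nonneg hb (hC.bz Z hZ) ht hP hτ n

theorem Zc.psi_nonneg (hC : Zc b R C) (hb : 0 < b) (ht : |t| ≤ 1) (hτ : τ ≤ log b) (n : ℕ) :
    0 ≤ psi2 b t τ C n :=
  Real.sInf_nonneg (hC.vals_bdd hb ht hτ n)

theorem Zc.psi_le (hC : Zc b R C) (hb : 0 < b) (ht : |t| ≤ 1) (hτ : τ ≤ log b) (n : ℕ) :
    psi2 b t τ C n ≤ n * (Fintype.card ι * log b) :=
  csInf_le ⟨0, fun x hx => hC.vals_bdd hb ht hτ n x hx⟩ (Or.inl rfl)

theorem Zc.psi_le_mem (hC : Zc b R C) (hb : 0 < b) (ht : |t| ≤ 1) (hτ : τ ≤ log b) (n : ℕ)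
    (hZ : Z ∈ C) (hP : Adm I P) : psi2 b t τ C n ≤ Ee b t τ n Z I P :=
  csInf_le ⟨0, fun x hx => hC.vals_bdd hb ht hτ n x hx⟩ (Or.inr ⟨Z, hZ, I, P, hP, rfl⟩)

theorem Zc.psi_super [NeZero b] (hC : Zc b R C) (hb : 0 < b) (ht : |t| ≤ 1) (hτ : τ ≤ log b)
    (k l : ℕ) : psi2 b t τ C k + psi2 b t τ C l - C0 ι (R2 ι R) ≤ psi2 b t τ C (k + l) := by
  refine le_csInf ⟨_, Or.inl rfl⟩ ?_
  rintro x (rfl | ⟨Z, hZ, I, P, hP, rfl⟩)
  · have h1 := hC.psi_le hb ht hτ k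
    have h2 := hC.psi_le hb ht hτ l
    have h3 := C0_nonneg (ι := ι) (R2 ι R)
    push_cast
    linarith
  · have h1 := Ee_super hb (hC.bz Z hZ) ht hP τ k l
    have h2 := hC.psi_le_mem hb ht hτ k hZ hP
    have h3 : psi2 b t τ C l ≤ av (fun w : ι → Fin (b ^ k) =>
        Ee b t τ l (zm (b ^ k) (dv w) Z) I P) := by
      rw [← av_const (Ω := ι → Fin (b ^ k)) (psi2 b t τ C l)]
      exact av_mono fun w => hC.psi_le_mem hb ht hτ l (hC.zoom Z hZ k _ (dv_lt w)) hP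
    linarith

/-- The rate. -/
theorem Zc.exists_rate [NeZero b] (hC : Zc b R C) (hb : 0 < b) (ht : |t| ≤ 1) (hτ : τ ≤ log b) :
    ∃ r : ℝ, 0 ≤ r ∧ r ≤ Fintype.card ι * log b ∧
      (∀ n : ℕ, psi2 b t τ C n ≤ r * n + C0 ι (R2 ι R)) ∧
      ∀ η : ℝ, 0 < η → ∃ D : ℝ, 0 ≤ D ∧ ∀ n : ℕ, (r - η) * n - D ≤ psi2 b t τ C n := by
  have hb1 : (1:ℝ) ≤ b := by exact_mod_cast hb
  have hlb := Real.log_nonneg hb1
  set K : ℝ := Fintype.card ι * log b with hK
  have hK0 : 0 ≤ K := by positivity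
  set D := C0 ι (R2 ι R) with hD
  have hD0 : 0 ≤ D := C0_nonneg _
  set u : ℕ → ℝ := fun n => D - psi2 b t τ C n with hu
  have hsub : Subadditive u := by
    intro k l
    have := hC.psi_super hb ht hτ k l
    rw [hu]
    simp only
    linarith
  have hlow : ∀ n : ℕ, -K ≤ u n / n := by
    intro n
    rcases Nat.eq_zero_or_pos n with h0 | h0
    · rw [h0]; simp [hK0]
    · have hn : (0:ℝ) < n := by exact_mod_cast h0
      rw [le_div_iff₀ hn]
      have := hC.psi_le hb ht hτ n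
      rw [hu]
      simp only
      nlinarith
  have hbdd : BddBelow (Set.range fun n : ℕ => u n / n) :=
    ⟨-K, by rintro _ ⟨n, rfl⟩; exact hlow n⟩
  have hlim := hsub.tendsto_lim hbdd
  have h1 : -K ≤ hsub.lim := ge_of_tendsto hlim (Filter.Eventually.of_forall hlow)
  have h2 : hsub.lim ≤ 0 := by
    have h3 : Filter.Tendsto (fun n : ℕ => D / n) Filter.atTop (nhds 0) :=
      tendsto_const_nhds.div_atTop tendsto_natCast_atTop_atTop
    refine le_of_tendsto_of_tendsto hlim h3 (Filter.Eventually.of_forall fun n => ?_)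
    have := hC.psi_nonneg hb ht hτ n
    exact div_le_div_of_nonneg_right (by rw [hu]; simp only; linarith) (by positivity)
  refine ⟨- hsub.lim, by linarith, by linarith, fun n => ?_, fun η hη => ?_⟩
  · rcases Nat.eq_zero_or_pos n with h0 | h0
    · have := hC.psi_le hb ht hτ n
      rw [h0] at this ⊢
      simp only [Nat.cast_zero, zero_mul, mul_zero] at this ⊢
      linarith
    · have hn : (0:ℝ) < n := by exact_mod_cast h0
      have h3 := hsub.lim_le_div hbdd (n := n) (by omega)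
      rw [le_div_iff₀ hn] at h3
      have e : u n = D - psi2 b t τ C n := rfl
      linarith
  · have h3 : ∀ᶠ n : ℕ in Filter.atTop, u n / n < hsub.lim + η :=
      hlim.eventually (gt_mem_nhds (by linarith))
    obtain ⟨n0, hn0⟩ := Filter.eventually_atTop.1 h3
    refine ⟨K * (n0 + 1), by positivity, fun n => ?_⟩
    rcases lt_or_ge n (n0 + 1) with h4 | h4
    · have h5 := hC.psi_nonneg hb ht hτ n
      have h6 : (n:ℝ) ≤ n0 + 1 := by exact_mod_cast h4.le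
      have h7 : (-hsub.lim - η) * n ≤ K * n := by
        refine mul_le_mul_of_nonneg_right ?_ (by positivity)
        linarith
      have h8 : K * n ≤ K * (n0 + 1) := mul_le_mul_of_nonneg_left h6 hK0
      linarith
    · have h5 := hn0 n (by omega)
      have hn : (0:ℝ) < n := by exact_mod_cast (by omega : 0 < n)
      rw [div_lt_iff₀ hn] at h5
      have e : u n = D - psi2 b t τ C n := rfl
      have h6 : 0 ≤ K * (n0 + 1) := by positivity
      linarith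

/-- One step. -/
theorem Zc.gain_step [NeZero b] [Nonempty ι] (hC : Zc b R C) (hb : 2 ≤ b) (ht : |t| ≤ 1)
    (hZ : Z ∈ C) (hP : Adm I P) {k q : ℕ} {K : ℕ} (hK : 1 + R2 ι R + 1 ≤ K)
    (hτ : τ ≤ log b) {low : ℝ} (hlow : low ≤ psi2 b t τ C q) :
    low - C1 ι (R2 ι R) K + τ * q *
        iv b (fun y => P y = y) (dq b q) q ((k + q : ℕ) : ℤ) (pf P Z t) ≤
      (En b (pf P Z t) (k + q) - En b (pf P Z t) k) + q * (log b - τ) * I.card := by
  have hbp : 0 < b := by omega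
  obtain ⟨I', P', hP', e1, e2⟩ := choose_ext hb (inst_triv hbp (hC.bz Z hZ) ht hP 0 (k + q)) hK
    (Finset.mem_singleton_self t)
  set J : ℝ := iv b (fun y => P y = y) (dq b q) q ((k + q : ℕ) : ℤ) (pf P Z t) with hJ
  have h1 : ∀ v : ι → Fin (b ^ k), low ≤ En b (pf P' (zm (b ^ k) (dv v) Z) t) q +
      I'.card * q * (log b - τ) := fun v =>
    hlow.trans (hC.psi_le_mem hbp ht hτ q (hC.zoom Z hZ k _ (dv_lt v)) hP')
  have h2 : low ≤ av (fun v : ι → Fin (b ^ k) => En b (pf P' (zm (b ^ k) (dv v) Z) t) q) +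
      I'.card * q * (log b - τ) := by
    rw [← av_const (Ω := ι → Fin (b ^ k)) low, ← av_const (Ω := ι → Fin (b ^ k))
      ((I'.card : ℝ) * q * (log b - τ)), ← av_add]
    exact av_mono h1
  rw [e1] at h2
  nlinarith

theorem Zc.gain_sum [NeZero b] [Nonempty ι] (hC : Zc b R C) (hb : 2 ≤ b) (ht : |t| ≤ 1)
    (hZ : Z ∈ C) (hP : Adm I P) {M q : ℕ} {K : ℕ} (hK : 1 + R2 ι R + 1 ≤ K)
    (hτ : τ ≤ log b) {low : ℝ} (hlow : low ≤ psi2 b t τ C q) :
    M * (low - C1 ι (R2 ι R) K) + τ * q * ∑ a ∈ Finset.range M,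
        iv b (fun y => P y = y) (dq b q) q (((a + 1) * q : ℕ) : ℤ) (pf P Z t) ≤
      Ee b t τ (M * q) Z I P := by
  have hbp : 0 < b := by omega
  have key : ∀ N : ℕ, N * (low - C1 ι (R2 ι R) K) + τ * q * ∑ a ∈ Finset.range N,
        iv b (fun y => P y = y) (dq b q) q (((a + 1) * q : ℕ) : ℤ) (pf P Z t) ≤
      (En b (pf P Z t) (N * q) - En b (pf P Z t) 0) + N * q * (log b - τ) * I.card := by
    intro N
    induction N with
    | zero => simp
    | succ N ih =>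
      have h2 := hC.gain_step hb ht hZ hP (k := N * q) (q := q) hK hτ hlow
      have e1 : N * q + q = (N + 1) * q := by ring
      rw [e1] at h2
      rw [Finset.sum_range_succ]
      push_cast at ih h2 ⊢
      linarith
  have h1 := key M
  refine h1.trans ?_
  unfold Ee
  have h2 := ((hC.bz Z hZ).pf hbp ht hP).En_nonneg hbp 0
  push_cast
  nlinarith

end Pool.Agent.V7H68.HZ
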