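import Pool.Agent.V7H68.UF.Geo

/-!
Perturbation of determinants, and the volume of sets of bad parameters with a free threshold.
-/

namespace Pool.Agent.V7H68.HZ

open Finset Real MeasureTheory SS MS UF

set_option linter.unusedSectionVars false

theorem prod_close {κ : Type*} (s : Finset κ) (a c : κ → ℝ) {B e : ℝ} (hB : 1 ≤ B) (he : 0 ≤ e)
    (ha : ∀ i ∈ s, |a i| ≤ B) (hc : ∀ i ∈ s, |c i| ≤ B) (hac : ∀ i ∈ s, |a i - c i| ≤ e) :
    |∏ i ∈ s, a i - ∏ i ∈ s, c i| ≤ s.card * (B ^ s.card * e) := by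
  classical
  induction s using Finset.induction_on with
  | empty => simp
  | insert i s hi ih =>
    have ih' := ih (fun j hj => ha j (Finset.mem_insert_of_mem hj))
      (fun j hj => hc j (Finset.mem_insert_of_mem hj))
      (fun j hj => hac j (Finset.mem_insert_of_mem hj))
    rw [Finset.prod_insert hi, Finset.prod_insert hi, Finset.card_insert_of_notMem hi]
    have h1 : a i * ∏ j ∈ s, a j - c i * ∏ j ∈ s, c j =
        a i * (∏ j ∈ s, a j - ∏ j ∈ s, c j) + (a i - c i) * ∏ j ∈ s, c j := by ring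
    have hp : |∏ j ∈ s, c j| ≤ B ^ s.card := by
      rw [Finset.abs_prod, ← Finset.prod_const]
      exact Finset.prod_le_prod (fun _ _ => abs_nonneg _)
        fun j hj => hc j (Finset.mem_insert_of_mem hj)
    have hai := ha i (Finset.mem_insert_self i s)
    have hei := hac i (Finset.mem_insert_self i s)
    rw [h1]
    refine (abs_add_le _ _).trans ?_
    rw [abs_mul, abs_mul]
    have hB0 : 0 ≤ B := by linarith
    have hBs : 0 ≤ B ^ s.card := by positivity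
    have h2 : |a i| * |∏ j ∈ s, a j - ∏ j ∈ s, c j| ≤ B * (s.card * (B ^ s.card * e)) :=
      mul_le_mul hai ih' (abs_nonneg _) hB0
    have h3 : |a i - c i| * |∏ j ∈ s, c j| ≤ e * B ^ s.card :=
      mul_le_mul hei hp (abs_nonneg _) he
    have h4 : e * B ^ s.card ≤ B * (B ^ s.card * e) := by
      have : 0 ≤ B ^ s.card * e := by positivity
      nlinarith
    refine (add_le_add h2 (h3.trans h4)).trans (le_of_eq ?_)
    rw [pow_succ]
    push_cast
    ring

theorem det_close {l : ℕ} (A C : Matrix (Fin l) (Fin l) ℝ) {B e : ℝ} (hB : 1 ≤ B) (he : 0 ≤ e)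
    (hA : ∀ i j, |A i j| ≤ B) (hC : ∀ i j, |C i j| ≤ B) (hAC : ∀ i j, |A i j - C i j| ≤ e) :
    |A.det - C.det| ≤ (Nat.factorial l) * (l * (B ^ l * e)) := by
  rw [Matrix.det_apply', Matrix.det_apply', ← Finset.sum_sub_distrib]
  refine (Finset.abs_sum_le_sum_abs _ _).trans ?_
  have h1 : ∀ σ ∈ (Finset.univ : Finset (Equiv.Perm (Fin l))),
      |((Equiv.Perm.sign σ : ℤ) : ℝ) * ∏ i, A (σ i) i -
        ((Equiv.Perm.sign σ : ℤ) : ℝ) * ∏ i, C (σ i) i| ≤ l * (B ^ l * e) := by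
    intro σ _
    rw [← mul_sub, abs_mul]
    have h2 : |((Equiv.Perm.sign σ : ℤ) : ℝ)| = 1 := by
      rcases Int.units_eq_one_or (Equiv.Perm.sign σ) with h | h <;> rw [h] <;> simp
    rw [h2, one_mul]
    have h3 := prod_close (Finset.univ : Finset (Fin l)) (fun i => A (σ i) i) (fun i => C (σ i) i)
      hB he (fun i _ => hA _ _) (fun i _ => hC _ _) (fun i _ => hAC _ _)
    rwa [Finset.card_univ, Fintype.card_fin] at h3
  refine (Finset.sum_le_sum h1).trans (le_of_eq ?_)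
  rw [Finset.sum_const, nsmul_eq_mul, Finset.card_univ, Fintype.card_perm, Fintype.card_fin]

variable {ι : Type} [Fintype ι] [DecidableEq ι] {b : ℕ}

/-- Bad parameters with a free threshold. -/
def bdr (b : ℕ) (f : (ι → ℝ) → ι → ℝ) (ρ : ℝ) (n : ℕ) : Set ℝ :=
  ⋃ l ∈ Finset.range (Fintype.card ι + 1),
    ⋃ x : (Fin (l + 1) → ι → Fin (b ^ n)) × (ι → Fin (b ^ n)) × (Fin (l + 1) → ι),
      bd1 b n f ρ x.1 x.2.1 x.2.2

theorem bdn_eq_bdr (f : (ι → ℝ) → ι → ℝ) (A n : ℕ) :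
    bdn b f A n = bdr b f (((b:ℝ) ^ (A * n))⁻¹) n := rfl

theorem bdr_vol (hb : 2 ≤ b) (f : (ι → ℝ) → ι → ℝ) {ρ : ℝ} (hρ0 : 0 < ρ) (n : ℕ) :
    volume (bdr b f ρ n) ≤
      ENNReal.ofReal (Cb ι * ((b:ℝ) ^ (Fintype.card ι * (Fintype.card ι + 2) * n) * ρ)) := by
  have hb0 : (0:ℝ) < b := by exact_mod_cast (by omega : 0 < b)
  set m := Fintype.card ι with hm
  set N := (b ^ n) ^ m with hN
  have hN1 : 1 ≤ N := Nat.one_le_pow _ _ (Nat.pow_pos (by omega))
  have h1 : volume (bdr b f ρ n) ≤ ∑ l ∈ Finset.range (m + 1),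
      ∑ _x : (Fin (l + 1) → ι → Fin (b ^ n)) × (ι → Fin (b ^ n)) × (Fin (l + 1) → ι),
        ((l + 1 : ℕ) * ENNReal.ofReal (2 * ρ)) := by
    unfold bdr
    refine (measure_biUnion_finset_le _ _).trans (Finset.sum_le_sum fun l _ => ?_)
    refine (measure_iUnion_fintype_le _ _).trans (Finset.sum_le_sum fun x _ => ?_)
    exact bd1_vol n f hρ0 x.1 x.2.1 x.2.2
  refine h1.trans ?_
  have h2 : ∀ l ∈ Finset.range (m + 1),
      (∑ _x : (Fin (l + 1) → ι → Fin (b ^ n)) × (ι → Fin (b ^ n)) × (Fin (l + 1) → ι),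
        ((l + 1 : ℕ) * ENNReal.ofReal (2 * ρ))) ≤
      ENNReal.ofReal ((N:ℝ) ^ (m + 2) * (m + 1) ^ (m + 1) * ((m + 1) * (2 * ρ))) := by
    intro l hl
    rw [Finset.mem_range] at hl
    rw [Finset.sum_const, nsmul_eq_mul]
    have h3 : ((l + 1 : ℕ) : ENNReal) = ENNReal.ofReal ((l + 1 : ℕ) : ℝ) := by
      rw [ENNReal.ofReal_natCast]
    have h4 : ((Finset.univ : Finset ((Fin (l + 1) → ι → Fin (b ^ n)) × (ι → Fin (b ^ n)) ×
        (Fin (l + 1) → ι))).card : ENNReal) =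
        ENNReal.ofReal (((Finset.univ : Finset ((Fin (l + 1) → ι → Fin (b ^ n)) ×
        (ι → Fin (b ^ n)) × (Fin (l + 1) → ι))).card : ℕ) : ℝ) := by
      rw [ENNReal.ofReal_natCast]
    rw [h3, h4, ← ENNReal.ofReal_mul (by positivity), ← ENNReal.ofReal_mul (by positivity)]
    refine ENNReal.ofReal_le_ofReal ?_
    have h5 : ((Finset.univ : Finset ((Fin (l + 1) → ι → Fin (b ^ n)) × (ι → Fin (b ^ n)) ×
        (Fin (l + 1) → ι))).card : ℝ) ≤ (N:ℝ) ^ (m + 2) * (m + 1) ^ (m + 1) := by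
      have h6 : (Finset.univ : Finset ((Fin (l + 1) → ι → Fin (b ^ n)) × (ι → Fin (b ^ n)) ×
        (Fin (l + 1) → ι))).card = N ^ (l + 2) * m ^ (l + 1) := by
        simp only [Finset.card_univ, Fintype.card_prod, Fintype.card_pi, Finset.prod_const,
          Fintype.card_fin, ← hm, ← hN]
        rw [pow_succ N (l + 1)]
        ring
      rw [h6]
      push_cast
      have hN1' : (1:ℝ) ≤ N := by exact_mod_cast hN1
      have h7 : (N:ℝ) ^ (l + 2) ≤ (N:ℝ) ^ (m + 2) := pow_le_pow_right₀ hN1' (by omega)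
      have h8 : (m:ℝ) ^ (l + 1) ≤ ((m:ℝ) + 1) ^ (m + 1) := by
        calc (m:ℝ) ^ (l + 1) ≤ ((m:ℝ) + 1) ^ (l + 1) :=
              pow_le_pow_left₀ (by positivity) (by linarith) _
          _ ≤ ((m:ℝ) + 1) ^ (m + 1) :=
              pow_le_pow_right₀ (by have : (0:ℝ) ≤ m := by positivity
                                    linarith) (by omega)
      exact mul_le_mul h7 h8 (by positivity) (by positivity)
    have h6 : ((l + 1 : ℕ) : ℝ) * (2 * ρ) ≤ ((m:ℝ) + 1) * (2 * ρ) := by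
      refine mul_le_mul_of_nonneg_right ?_ (by positivity)
      push_cast
      have : (l:ℝ) ≤ m := by exact_mod_cast (by omega : l ≤ m)
      linarith
    exact mul_le_mul h5 h6 (by positivity) (by positivity)
  refine (Finset.sum_le_sum h2).trans ?_
  rw [Finset.sum_const, nsmul_eq_mul, Finset.card_range]
  have h3 : ((m + 1 : ℕ) : ENNReal) = ENNReal.ofReal ((m + 1 : ℕ) : ℝ) := by
    rw [ENNReal.ofReal_natCast]
  rw [h3, ← ENNReal.ofReal_mul (by positivity)]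
  refine ENNReal.ofReal_le_ofReal (le_of_eq ?_)
  have e1 : (N:ℝ) ^ (m + 2) = (b:ℝ) ^ (m * (m + 2) * n) := by
    rw [hN]
    push_cast
    rw [← pow_mul, ← pow_mul]
    congr 1
    ring
  unfold Cb
  rw [← hm, e1]
  push_cast
  ring

/-- Bad parameters are bad for nearby functions, with twice the threshold. -/
theorem bdn_near (hb : 2 ≤ b) {R : ℝ} {f φ : (ι → ℝ) → ι → ℝ} (hf : Bz b R f) {A n : ℕ}
    {t : ℝ} (ht1 : |t| ≤ 1)
    (hφ : ∀ y ∈ cube ι, ‖f y - φ y‖ ≤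
      ((b:ℝ) ^ (((A + 1) * (Fintype.card ι + 1) + 2) * n))⁻¹)
    (hn : (Nat.factorial (Fintype.card ι + 1) : ℝ) * (((Fintype.card ι + 1 : ℕ) : ℝ) *
      ((2 * R + 3) ^ (Fintype.card ι + 1) * 2)) ≤ (b:ℝ) ^ n)
    (ht : t ∈ bdn b f A n) : t ∈ bdr b φ (2 * ((b:ℝ) ^ (A * n))⁻¹) n := by
  have hb0 : (0:ℝ) < b := by exact_mod_cast (by omega : 0 < b)
  have hb1 : (1:ℝ) ≤ b := by exact_mod_cast (by omega : 1 ≤ b)
  set m := Fintype.card ι with hm
  have hR := hf.R0
  set X : ℝ := (b:ℝ) ^ n with hX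
  have hX1 : 1 ≤ X := one_le_pow₀ hb1
  have hX0 : 0 < X := by linarith
  set E : ℝ := ((b:ℝ) ^ (((A + 1) * (m + 1) + 2) * n))⁻¹ with hE
  have hE0 : 0 < E := by positivity
  have hE1 : E ≤ 1 := by
    rw [hE]
    exact inv_le_one_of_one_le₀ (one_le_pow₀ hb1)
  have hEX : E = (X ^ ((A + 1) * (m + 1) + 2))⁻¹ := by rw [hE, hX, ← pow_mul, mul_comm n]
  set ρ : ℝ := ((b:ℝ) ^ (A * n))⁻¹ with hρ
  have hρX : ρ = (X ^ A)⁻¹ := by rw [hρ, hX, ← pow_mul, mul_comm n]
  have hρ0 : 0 < ρ := by positivity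
  have hρ1 : ρ ≤ 1 := by
    rw [hρ]
    exact inv_le_one_of_one_le₀ (one_le_pow₀ hb1)
  unfold bdn at ht
  simp only [Set.mem_iUnion] at ht
  obtain ⟨l, hl, ⟨ws, w0, σ⟩, hdet, hlt⟩ := ht
  rw [Finset.mem_range] at hl
  unfold bdr
  simp only [Set.mem_iUnion]
  refine ⟨l, Finset.mem_range.2 hl, (ws, w0, σ), hdet, ?_⟩
  simp only at hlt ⊢
  have hXd : ∀ (w : ι → Fin (b ^ n)) (j : ι), |UF.X b n f w j - UF.X b n φ w j| ≤ X * E := by
    intro w j
    have h1 := hφ _ (corner_mem_cube (dv_lt w))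
    have h2 : UF.X b n f w j - UF.X b n φ w j = X * (f (((b ^ n : ℕ) : ℝ)⁻¹ • nv (dv w)) -
        φ (((b ^ n : ℕ) : ℝ)⁻¹ • nv (dv w))) j := by
      unfold UF.X
      simp only [Pi.smul_apply, Pi.sub_apply, smul_eq_mul]
      push_cast
      rw [hX]
      ring
    rw [h2, abs_mul, abs_of_pos hX0]
    refine mul_le_mul_of_nonneg_left ?_ hX0.le
    exact (norm_le_pi_norm (f (((b ^ n : ℕ) : ℝ)⁻¹ • nv (dv w)) -
        φ (((b ^ n : ℕ) : ℝ)⁻¹ • nv (dv w))) j).trans h1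
  have hXf : ∀ (w : ι → Fin (b ^ n)) (j : ι), |UF.X b n f w j| ≤ X * R := by
    intro w j
    exact (norm_le_pi_norm (UF.X b n f w) j).trans (norm_X_le hf n w)
  have hV : ∀ (i : Fin (l + 1)) (j : Fin (l + 1)), |mV b n ws w0 σ i j| ≤ X := by
    intro i j
    simp only [mV, Matrix.of_apply]
    have h1 : ((dv (ws i) (σ j) : ℕ) : ℝ) ≤ X := by
      have := (dv_lt (ws i) (σ j)).le
      rw [hX]
      exact_mod_cast this
    have h2 : ((dv w0 (σ j) : ℕ) : ℝ) ≤ X := by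
      have := (dv_lt w0 (σ j)).le
      rw [hX]
      exact_mod_cast this
    have h3 : (0:ℝ) ≤ ((dv (ws i) (σ j) : ℕ) : ℝ) := Nat.cast_nonneg _
    have h4 : (0:ℝ) ≤ ((dv w0 (σ j) : ℕ) : ℝ) := Nat.cast_nonneg _
    rw [abs_le]
    constructor <;> linarith
  set B : ℝ := X * (2 * R + 3) with hB
  have hB1 : 1 ≤ B := by rw [hB]; nlinarith
  have htV : ∀ i j, |t * mV b n ws w0 σ i j| ≤ X := by
    intro i j
    rw [abs_mul]
    have := hV i j
    have h0 := abs_nonneg (mV b n ws w0 σ i j)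
    nlinarith
  have hA1 : ∀ i j, |(mX b n f ws w0 σ + t • mV b n ws w0 σ) i j| ≤ B := by
    intro i j
    simp only [Matrix.add_apply, Matrix.smul_apply, smul_eq_mul]
    refine (abs_add_le _ _).trans ?_
    have h1 : |mX b n f ws w0 σ i j| ≤ X * R + X * R := by
      simp only [mX, Matrix.of_apply]
      exact (abs_sub _ _).trans (add_le_add (hXf _ _) (hXf _ _))
    have h2 := htV i j
    rw [hB]
    linarith
  have hAC : ∀ i j, |(mX b n f ws w0 σ + t • mV b n ws w0 σ) i j -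
      (mX b n φ ws w0 σ + t • mV b n ws w0 σ) i j| ≤ 2 * (X * E) := by
    intro i j
    simp only [Matrix.add_apply, Matrix.smul_apply, smul_eq_mul, mX, Matrix.of_apply]
    have h1 : UF.X b n f (ws i) (σ j) - UF.X b n f w0 (σ j) + t * mV b n ws w0 σ i j -
        (UF.X b n φ (ws i) (σ j) - UF.X b n φ w0 (σ j) + t * mV b n ws w0 σ i j) =
        (UF.X b n f (ws i) (σ j) - UF.X b n φ (ws i) (σ j)) -
        (UF.X b n f w0 (σ j) - UF.X b n φ w0 (σ j)) := by ring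
    rw [h1]
    refine (abs_sub _ _).trans ?_
    have h2 := hXd (ws i) (σ j)
    have h3 := hXd w0 (σ j)
    linarith
  have hC1 : ∀ i j, |(mX b n φ ws w0 σ + t • mV b n ws w0 σ) i j| ≤ B := by
    intro i j
    have h1 := hAC i j
    have h2 : |(mX b n f ws w0 σ + t • mV b n ws w0 σ) i j| ≤ X * R + X * R + X := by
      simp only [Matrix.add_apply, Matrix.smul_apply, smul_eq_mul]
      refine (abs_add_le _ _).trans ?_
      have h1 : |mX b n f ws w0 σ i j| ≤ X * R + X * R := by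
        simp only [mX, Matrix.of_apply]
        exact (abs_sub _ _).trans (add_le_add (hXf _ _) (hXf _ _))
      have h2 := htV i j
      linarith
    have h3 : 2 * (X * E) ≤ 2 * X := by nlinarith
    have h4 := abs_sub_abs_le_abs_sub ((mX b n φ ws w0 σ + t • mV b n ws w0 σ) i j)
      ((mX b n f ws w0 σ + t • mV b n ws w0 σ) i j)
    rw [abs_sub_comm] at h4
    rw [hB]
    linarith
  have hclose := det_close _ _ hB1 (by positivity : (0:ℝ) ≤ 2 * (X * E)) hA1 hC1 hAC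
  have hbound : (Nat.factorial (l + 1) : ℝ) * (((l + 1 : ℕ) : ℝ) * (B ^ (l + 1) *
      (2 * (X * E)))) ≤ ρ ^ (l + 1) := by
    set c : ℝ := 2 * R + 3 with hc
    have hc1 : 1 ≤ c := by rw [hc]; linarith
    have e1 : B ^ (l + 1) = X ^ (l + 1) * c ^ (l + 1) := by rw [hB, mul_pow]
    have e2 : c ^ (l + 1) ≤ c ^ (m + 1) := pow_le_pow_right₀ hc1 (by omega)
    have e3 : (Nat.factorial (l + 1) : ℝ) ≤ Nat.factorial (m + 1) := by
      exact_mod_cast Nat.factorial_le (by omega)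
    have e4 : ((l + 1 : ℕ) : ℝ) ≤ ((m + 1 : ℕ) : ℝ) := by exact_mod_cast (by omega : l + 1 ≤ m + 1)
    have e5 : (Nat.factorial (l + 1) : ℝ) * (((l + 1 : ℕ) : ℝ) * (c ^ (l + 1) * 2)) ≤ X := by
      refine le_trans ?_ hn
      refine mul_le_mul e3 ?_ (by positivity) (by positivity)
      exact mul_le_mul e4 (mul_le_mul_of_nonneg_right e2 (by norm_num)) (by positivity)
        (by positivity)
    have e6 : (Nat.factorial (l + 1) : ℝ) * (((l + 1 : ℕ) : ℝ) * (B ^ (l + 1) * (2 * (X * E)))) =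
        ((Nat.factorial (l + 1) : ℝ) * (((l + 1 : ℕ) : ℝ) * (c ^ (l + 1) * 2))) *
          (X ^ (l + 1) * X * E) := by
      rw [e1]
      ring
    rw [e6]
    have e7 : 0 ≤ X ^ (l + 1) * X * E := by positivity
    refine (mul_le_mul_of_nonneg_right e5 e7).trans ?_
    have e9 : ρ ^ (l + 1) = (X ^ (A * (l + 1)))⁻¹ := by rw [hρX, inv_pow, ← pow_mul X A]
    have e8 : X * (X ^ (l + 1) * X * E) = X ^ (l + 3) * (X ^ ((A + 1) * (m + 1) + 2))⁻¹ := by
      rw [hEX]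
      ring
    rw [e8, e9, ← div_eq_mul_inv, div_le_iff₀ (by positivity), ← div_eq_inv_mul,
      le_div_iff₀ (by positivity), ← pow_add]
    refine pow_le_pow_right₀ hX1 ?_
    have e10 : (A + 1) * (l + 1) ≤ (A + 1) * (m + 1) := Nat.mul_le_mul_left _ (by omega)
    have e11 : (A + 1) * (l + 1) = A * (l + 1) + (l + 1) := by ring
    omega
  have h1 := abs_sub_abs_le_abs_sub ((mX b n φ ws w0 σ + t • mV b n ws w0 σ).det)
    ((mX b n f ws w0 σ + t • mV b n ws w0 σ).det)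
  rw [abs_sub_comm] at h1
  have h2 : |(mX b n φ ws w0 σ + t • mV b n ws w0 σ).det| < 2 * ρ ^ (l + 1) := by linarith
  refine h2.trans_le ?_
  rw [mul_pow]
  refine mul_le_mul_of_nonneg_right ?_ (by positivity)
  calc (2:ℝ) = 2 ^ 1 := by norm_num
    _ ≤ 2 ^ (l + 1) := pow_le_pow_right₀ (by norm_num) (by omega)

end Pool.Agent.V7H68.HZ
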