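import Pool.Agent.V7H68.UF.Single

/-!
The chain of scales for a function with few zooms at one level.
-/

namespace Pool.Agent.V7H68.HZ

open Finset Real MeasureTheory SS MS UF

set_option linter.unusedSectionVars false

variable {ι : Type} [Fintype ι] [DecidableEq ι] {b : ℕ}

/-- Concentration fails for good parameters, so the entropy is large. -/
theorem single2 [NeZero b] (hb : 2 ≤ b) {R : ℝ} {f : (ι → ℝ) → ι → ℝ}
    (hfc : Bz b R f) {A ℓ cnt : ℕ}
    (hcnt : (Set.range fun w : ι → Fin (b ^ ℓ) => zm (b ^ ℓ) (dv w) f).ncard ≤ cnt) {t : ℝ} (ht1 : |t| ≤ 1) (ht : t ∉ bdn b f A ℓ) {I : Finset ι}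
    {P : (ι → ℝ) →ₗ[ℝ] (ι → ℝ)} (hP : Adm I P) {q M a0 : ℕ} (ha0 : a0 ≤ M)
    (hM : ((Fintype.card ι + 1) * (A + 1) + 1) * ℓ ≤ M * q)
    (hn : ((Fintype.card ι + 1 : ℕ) : ℝ) ^ 2 * (Nat.factorial (Fintype.card ι + 1)) *
      (2 * (R + 1) + 1) ^ (Fintype.card ι + 1) < (b:ℝ) ^ ℓ)
    {K : ℕ} (hK : 1 + R2 ι R + 1 ≤ K) :
    ((Fintype.card ι : ℝ) - I.card) * ℓ * log b ≤ En b (pf P f t) ℓ +
      Fintype.card ι * log (2 * K + 1) + log cnt + a0 * (q * (Fintype.card ι * log b)) +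
      M * (2 * log 2 + Fintype.card ι * log 3) +
      ∑ a ∈ Finset.Ico a0 M, (io b ℓ q P (pf P f t) a + 2 / dq b q * pr b ℓ q (pf P f t) a) *
        (q * (Fintype.card ι * log b)) := by
  have hbp : 0 < b := by omega
  have hb0 : (0:ℝ) < b := by exact_mod_cast hbp
  have hb1 : (1:ℝ) ≤ b := by exact_mod_cast hbp
  have hlb := Real.log_nonneg hb1
  set Z := pf P f t with hZ
  have hBZ : Bz b (R2 ι R) Z := hfc.pf hbp ht1 hP
  set m : ℝ := (Fintype.card ι : ℝ) with hm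
  set c1 : ℝ := 2 * log 2 + m * log 3 with hc1
  have hc10 : 0 ≤ c1 := by
    have := Real.log_nonneg (show (1:ℝ) ≤ 2 by norm_num)
    have := Real.log_nonneg (show (1:ℝ) ≤ 3 by norm_num)
    rw [hc1]
    positivity
  set B : ℝ := q * (m * log b) with hB
  have hB0 : 0 ≤ B := by positivity
  have hQ : ∀ (i : ℕ) (v w : ι → Fin (b ^ ℓ)),
      P ((b:ℝ) ^ i • X b ℓ Z v - (b:ℝ) ^ i • X b ℓ Z w) =
        (b:ℝ) ^ i • X b ℓ Z v - (b:ℝ) ^ i • X b ℓ Z w := by
    intro i v w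
    have h1 : ∀ v : ι → Fin (b ^ ℓ), P (X b ℓ Z v) = X b ℓ Z v := by
      intro v
      rw [hZ]
      unfold pf
      rw [X_lin, hP.idem]
    rw [map_sub, map_smul, map_smul, h1, h1]
  -- the chain
  have hchain : ∀ k : ℕ, a0 + k ≤ M → SS.hf (cellU b ℓ Z (a0 * q)) - k * c1 -
      ∑ a ∈ Finset.Ico a0 (a0 + k), (io b ℓ q P Z a + 2 / dq b q * pr b ℓ q Z a) * B ≤
      SS.hf (cellU b ℓ Z ((a0 + k) * q)) := by
    intro k hk
    induction k with
    | zero => simp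
    | succ k ih =>
      have h1 := ih (by omega)
      have h2 := chain_step (Z := Z) hb (dq_pos hb q) ℓ ((a0 + k) * q) q (fun y => P y = y)
        (hQ _)
      rw [← add_assoc, Finset.sum_Ico_succ_top (by omega)]
      have h3 : (a0 + k) * q + q = (a0 + k + 1) * q := by ring
      rw [h3] at h2
      have h4 : io b ℓ q P Z (a0 + k) = av (fun w : ι → Fin (b ^ ℓ) =>
        iv b (fun y => P y = y) (dq b q) q (((a0 + k) * q : ℕ) : ℤ) (zm (b ^ ℓ) (dv w) Z)) := rfl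
      have h5 : pr b ℓ q Z (a0 + k) = av (fun w : ι → Fin (b ^ ℓ) =>
          pairN (cls (cellU b ℓ Z ((a0 + k) * q)) w)
          (fun v => (b:ℝ) ^ ((a0 + k) * q) • X b ℓ Z v)
          (nrm (dn b (zm (b ^ ℓ) (dv w) Z) (((a0 + k) * q : ℕ) : ℤ)))) := by
        rfl
      rw [← h4, ← h5] at h2
      push_cast
      linarith
  obtain ⟨k, hk⟩ := Nat.exists_eq_add_of_le ha0
  have h1 := hchain k (by omega)
  rw [← hk] at h1
  have h2 := hfU_ge (Z := Z) hb ℓ 0 (a0 * q)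
  rw [Nat.zero_add] at h2
  have hp1 : (Finset.univ.image fun w : ι → Fin (b ^ ℓ) => zm (b ^ ℓ) (dv w) Z).card ≤ cnt := by
    exact card_zooms hbp hcnt P t
  have hp0 : 0 < (cnt : ℝ) := by
    have h3 : 0 < (Finset.univ.image fun w : ι → Fin (b ^ ℓ) => zm (b ^ ℓ) (dv w) Z).card :=
      Finset.card_pos.2 (Finset.univ_nonempty.image _)
    exact_mod_cast lt_of_lt_of_le h3 hp1
  have h3 := hf_cell_zeroU (Z := Z) (n := ℓ) hp0 (by exact_mod_cast hp1)
  have h4 := hBZ.hf_upper hb ℓ hK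
  -- no concentration
  have h5 : SS.hf (cellU b ℓ Z (M * q)) ≤ I.card * ℓ * log b := by
    obtain ⟨w0, hw0⟩ := exists_large_cls (cellU b ℓ Z (M * q))
    have h6 := not_conc hb hfc ht1 ht hP hn (cls (cellU b ℓ Z (M * q)) w0) w0 (by
      intro w hw
      have h7 := norm_sub_le_of_fl (congrArg Prod.fst (mem_cls.1 hw))
      rw [hZ] at h7
      unfold pf at h7
      rw [X_lin, X_lin, ← smul_sub, norm_smul, Real.norm_of_nonneg (by positivity)] at h7
      have h8 : (b:ℝ) ^ (((Fintype.card ι + 1) * (A + 1) + 1) * ℓ) ≤ (b:ℝ) ^ (M * q) :=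
        pow_le_pow_right₀ hb1 hM
      have h9 := norm_nonneg (P (X b ℓ (ft f t) w) - P (X b ℓ (ft f t) w0))
      rw [inv_eq_one_div, le_div_iff₀ (by positivity)]
      nlinarith)
    have h7 : exp (SS.hf (cellU b ℓ Z (M * q))) ≤ ((b:ℝ) ^ ℓ) ^ I.card :=
      hw0.trans (by exact_mod_cast h6)
    have h8 := Real.log_le_log (Real.exp_pos _) h7
    rw [Real.log_exp, Real.log_pow, Real.log_pow] at h8
    linarith
  have hcard : log (Fintype.card (ι → Fin (b ^ ℓ))) = m * ℓ * log b := by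
    have : (Fintype.card (ι → Fin (b ^ ℓ)) : ℝ) = ((b:ℝ) ^ ℓ) ^ Fintype.card ι := by
      rw [Fintype.card_pi]; simp
    rw [this, Real.log_pow, Real.log_pow, hm]
    ring
  rw [hcard] at h4
  have h6 : (k:ℝ) * c1 ≤ M * c1 :=
    mul_le_mul_of_nonneg_right (by exact_mod_cast (by omega : k ≤ M)) hc10
  have h7 : ((a0 * q : ℕ) : ℝ) * (m * log b) = a0 * B := by
    rw [hB]
    push_cast
    ring
  rw [h7] at h2
  have h8 : (m - I.card) * ℓ * log b = m * ℓ * log b - I.card * ℓ * log b := by ring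
  rw [h8]
  linarith

end Pool.Agent.V7H68.HZ
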