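import Pool.Agent.V7H68.UF.Rate
import Pool.Agent.V7H68.UF.Cells
import Pool.Agent.V7H68.UF.Chain
import Pool.Agent.V7H68.MS.Tang

/-!
Functions with prescribed values at the corners of one level and prescribed zooms at this level.
-/

namespace Pool.Agent.V7H68.HZ

open Finset Real MeasureTheory SS MS UF

set_option linter.unusedSectionVars false

variable {ι : Type} [Fintype ι] [DecidableEq ι] {b : ℕ}

/-- The function with the values of `f` at the corners and given zooms. -/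
noncomputable def spl (N : ℕ) (f : (ι → ℝ) → ι → ℝ) (ψ : (ι → Fin N) → (ι → ℝ) → ι → ℝ) :
    (ι → ℝ) → ι → ℝ := fun θ => ∑ w : ι → Fin N,
      (cube ι).indicator (fun y => f ((N:ℝ)⁻¹ • nv (dv w)) + (N:ℝ)⁻¹ • ψ w y)
        ((N:ℝ) • θ - nv (dv w))

theorem spl_cell {N : ℕ} (hN : 0 < N) (f : (ι → ℝ) → ι → ℝ)
    (ψ : (ι → Fin N) → (ι → ℝ) → ι → ℝ) (w : ι → Fin N) {y : ι → ℝ} (hy : y ∈ cube ι) :
    spl N f ψ ((N:ℝ)⁻¹ • (nv (dv w) + y)) = f ((N:ℝ)⁻¹ • nv (dv w)) + (N:ℝ)⁻¹ • ψ w y := by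
  have hN0 : (N:ℝ) ≠ 0 := by exact_mod_cast hN.ne'
  unfold spl
  rw [Finset.sum_eq_single w]
  · rw [smul_smul, mul_inv_cancel₀ hN0, one_smul, add_sub_cancel_left, Set.indicator_of_mem hy]
  · intro w' _ hw'
    rw [smul_smul, mul_inv_cancel₀ hN0, one_smul]
    refine Set.indicator_of_notMem (fun hmem => hw' ?_) _
    funext i
    have h1 := hy i
    have h2 := hmem i
    simp only [Pi.sub_apply, Pi.add_apply, nv, dv] at h2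
    have h3 : ((w' i : ℕ) : ℤ) = ((w i : ℕ) : ℤ) := by
      have e1 : (((w' i : ℕ) : ℤ) : ℝ) < ((w i : ℕ) : ℤ) + 1 := by push_cast; linarith
      have e2 : (((w i : ℕ) : ℤ) : ℝ) < ((w' i : ℕ) : ℤ) + 1 := by push_cast; linarith
      have e3 : ((w' i : ℕ) : ℤ) < ((w i : ℕ) : ℤ) + 1 := by exact_mod_cast e1
      have e4 : ((w i : ℕ) : ℤ) < ((w' i : ℕ) : ℤ) + 1 := by exact_mod_cast e2
      omega
    exact Fin.ext (by exact_mod_cast h3)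
  · intro h
    exact absurd (Finset.mem_univ _) h

theorem exists_cellw {N : ℕ} (hN : 0 < N) {θ : ι → ℝ} (hθ : θ ∈ cube ι) :
    ∃ (w : ι → Fin N) (y : ι → ℝ), y ∈ cube ι ∧ θ = (N:ℝ)⁻¹ • (nv (dv w) + y) := by
  have hN0 : (0:ℝ) < N := by exact_mod_cast hN
  have h1 : ∀ i, ⌊(N:ℝ) * θ i⌋₊ < N := by
    intro i
    rw [Nat.floor_lt (mul_nonneg hN0.le (hθ i).1)]
    exact mul_lt_of_lt_one_right hN0 (hθ i).2
  refine ⟨fun i => ⟨⌊(N:ℝ) * θ i⌋₊, h1 i⟩, fun i => (N:ℝ) * θ i - ⌊(N:ℝ) * θ i⌋₊, fun i => ?_, ?_⟩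
  · have h2 := Nat.floor_le (mul_nonneg hN0.le (hθ i).1)
    have h3 := Nat.lt_floor_add_one ((N:ℝ) * θ i)
    exact ⟨by linarith, by linarith⟩
  · funext i
    simp only [Pi.smul_apply, Pi.add_apply, nv, dv, smul_eq_mul]
    field_simp
    ring

theorem spl_off {N : ℕ} (hN : 0 < N) (f : (ι → ℝ) → ι → ℝ)
    (ψ : (ι → Fin N) → (ι → ℝ) → ι → ℝ) {θ : ι → ℝ} (hθ : θ ∉ cube ι) : spl N f ψ θ = 0 := by
  have hN0 : (N:ℝ) ≠ 0 := by exact_mod_cast hN.ne'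
  unfold spl
  refine Finset.sum_eq_zero fun w _ => Set.indicator_of_notMem (fun hmem => hθ ?_) _
  have h1 := affine_mem_cube (dv_lt w) hmem
  rw [add_sub_cancel, smul_smul, inv_mul_cancel₀ hN0, one_smul] at h1
  exact h1

theorem zm_spl {N : ℕ} (hN : 0 < N) (f : (ι → ℝ) → ι → ℝ)
    {ψ : (ι → Fin N) → (ι → ℝ) → ι → ℝ} (w : ι → Fin N) (h0 : ψ w 0 = 0)
    (hoff : ∀ u ∉ cube ι, ψ w u = 0) : zm N (dv w) (spl N f ψ) = ψ w := by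
  have hN0 : (N:ℝ) ≠ 0 := by exact_mod_cast hN.ne'
  funext y
  by_cases hy : y ∈ cube ι
  · rw [zm_of_mem hy, spl_cell hN f ψ w hy]
    have h1 := spl_cell hN f ψ w (zero_mem_cube (ι := ι))
    rw [add_zero, h0, smul_zero, add_zero] at h1
    rw [h1, add_sub_cancel_left, smul_smul, mul_inv_cancel₀ hN0, one_smul]
  · rw [zm_of_not_mem hy, hoff y hy]

theorem spl_meas {N : ℕ} (f : (ι → ℝ) → ι → ℝ) {ψ : (ι → Fin N) → (ι → ℝ) → ι → ℝ}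
    (h : ∀ w, Measurable (ψ w)) : Measurable (spl N f ψ) := by
  unfold spl
  refine Finset.measurable_sum _ fun w _ => ?_
  have h1 : Measurable fun y : ι → ℝ => f ((N:ℝ)⁻¹ • nv (dv w)) + (N:ℝ)⁻¹ • ψ w y :=
    Measurable.const_add ((h w).const_smul ((N:ℝ)⁻¹)) (f ((N:ℝ)⁻¹ • nv (dv w)))
  have h2 : Measurable fun θ : ι → ℝ => (N:ℝ) • θ - nv (dv w) :=
    Measurable.sub_const (measurable_id.const_smul (N:ℝ)) (nv (dv w))
  exact (h1.indicator cube_meas).comp h2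

theorem spl_close {N : ℕ} (hN : 0 < N) (f : (ι → ℝ) → ι → ℝ)
    {ψ : (ι → Fin N) → (ι → ℝ) → ι → ℝ} {ε : ℝ}
    (h : ∀ w, ∀ y ∈ cube ι, ‖zm N (dv w) f y - ψ w y‖ ≤ ε) {θ : ι → ℝ} (hθ : θ ∈ cube ι) :
    ‖f θ - spl N f ψ θ‖ ≤ (N:ℝ)⁻¹ * ε := by
  have hN0 : (0:ℝ) < N := by exact_mod_cast hN
  obtain ⟨w, y, hy, rfl⟩ := exists_cellw hN hθ
  have h1 := h w y hy
  rw [spl_cell hN f ψ w hy]
  have h2 : f ((N:ℝ)⁻¹ • (nv (dv w) + y)) - (f ((N:ℝ)⁻¹ • nv (dv w)) + (N:ℝ)⁻¹ • ψ w y) =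
      (N:ℝ)⁻¹ • (zm N (dv w) f y - ψ w y) := by
    rw [zm_of_mem hy, smul_sub, smul_smul, inv_mul_cancel₀ hN0.ne', one_smul]
    abel
  rw [h2, norm_smul, Real.norm_of_nonneg (by positivity)]
  exact mul_le_mul_of_nonneg_left h1 (by positivity)

theorem spl_bz (hb : 0 < b) {R : ℝ} {f : (ι → ℝ) → ι → ℝ} (hf : Bz b R f) {ℓ : ℕ}
    {ψ : (ι → Fin (b ^ ℓ)) → (ι → ℝ) → ι → ℝ} (hψ : ∀ w, Bz b R (ψ w)) {ε : ℝ}
    (hε : ε ≤ 1) (h : ∀ w, ∀ y ∈ cube ι, ‖zm (b ^ ℓ) (dv w) f y - ψ w y‖ ≤ ε) :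
    Bz b (R + 2) (spl (b ^ ℓ) f ψ) := by
  have hb0 : (0:ℝ) < b := by exact_mod_cast hb
  have hb1 : (1:ℝ) ≤ b := by exact_mod_cast hb
  have hN : 0 < b ^ ℓ := by positivity
  have hR0 := hf.R0
  refine ⟨spl_meas f fun w => (hψ w).meas, fun u hu => spl_off hN f ψ hu, ?_, fun n z hz u => ?_⟩
  · have h1 := spl_cell hN f ψ (fun _ => (⟨0, hN⟩ : Fin (b ^ ℓ))) (zero_mem_cube (ι := ι))
    have h2 : nv (dv (fun _ : ι => (⟨0, hN⟩ : Fin (b ^ ℓ)))) = 0 := by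
      funext i
      simp [nv, dv]
    rw [h2, add_zero, smul_zero, (hψ _).zero, smul_zero, add_zero, hf.zero] at h1
    exact h1
  · by_cases hu : u ∈ cube ι
    · rcases le_or_gt n ℓ with hn | hn
      · have h1 := hf.bdd n z hz u
        have h2 : ‖zm (b ^ n) z (spl (b ^ ℓ) f ψ) u - zm (b ^ n) z f u‖ ≤ 2 := by
          rw [zm_of_mem hu, zm_of_mem hu, ← smul_sub, norm_smul]
          have e1 := spl_close hN f h (affine_mem_cube hz hu)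
          have e2 := spl_close hN f h (corner_mem_cube hz)
          have e3 : spl (b ^ ℓ) f ψ (((b ^ n : ℕ) : ℝ)⁻¹ • (nv z + u)) -
              spl (b ^ ℓ) f ψ (((b ^ n : ℕ) : ℝ)⁻¹ • nv z) -
              (f (((b ^ n : ℕ) : ℝ)⁻¹ • (nv z + u)) - f (((b ^ n : ℕ) : ℝ)⁻¹ • nv z)) =
              (f (((b ^ n : ℕ) : ℝ)⁻¹ • nv z) - spl (b ^ ℓ) f ψ (((b ^ n : ℕ) : ℝ)⁻¹ • nv z)) -
              (f (((b ^ n : ℕ) : ℝ)⁻¹ • (nv z + u)) -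
                spl (b ^ ℓ) f ψ (((b ^ n : ℕ) : ℝ)⁻¹ • (nv z + u))) := by abel
          rw [e3]
          have e4 := (norm_sub_le _ _).trans (add_le_add e2 e1)
          have e5 : ((b ^ n : ℕ) : ℝ) ≤ ((b ^ ℓ : ℕ) : ℝ) := by
            push_cast
            exact pow_le_pow_right₀ hb1 hn
          have e6 : (0:ℝ) < ((b ^ ℓ : ℕ) : ℝ) := by exact_mod_cast hN
          have e7 : ((b ^ ℓ : ℕ) : ℝ) * ((((b ^ ℓ : ℕ) : ℝ))⁻¹ * ε + (((b ^ ℓ : ℕ) : ℝ))⁻¹ * ε) =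
              2 * ε := by
            field_simp
            ring
          rw [Real.norm_of_nonneg (by positivity)]
          refine (mul_le_mul e5 e4 (norm_nonneg _) e6.le).trans ?_
          rw [e7]
          linarith
        have h3 := norm_add_le (zm (b ^ n) z (spl (b ^ ℓ) f ψ) u - zm (b ^ n) z f u)
          (zm (b ^ n) z f u)
        rw [sub_add_cancel] at h3
        linarith
      · obtain ⟨n', rfl⟩ := Nat.exists_eq_add_of_le hn.le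
        have hz1 : ∀ i, z i / b ^ n' < b ^ ℓ := by
          intro i
          refine Nat.div_lt_of_lt_mul ?_
          have := hz i
          rwa [pow_add, mul_comm] at this
        have hz2 : ∀ i, z i % b ^ n' < b ^ n' := fun i => Nat.mod_lt _ (by positivity)
        have h1 : zm (b ^ (ℓ + n')) z (spl (b ^ ℓ) f ψ) =
            zm (b ^ n') (fun i => z i % b ^ n') (zm (b ^ ℓ) (fun i => z i / b ^ n')
              (spl (b ^ ℓ) f ψ)) := by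
          rw [zm_zm hN (by positivity) _ _ hz2, ← pow_add]
          congr 1
          funext i
          exact (Nat.div_add_mod (z i) (b ^ n')).symm
        have h2 : zm (b ^ ℓ) (fun i => z i / b ^ n') (spl (b ^ ℓ) f ψ) =
            ψ (fun i => ⟨z i / b ^ n', hz1 i⟩) :=
          zm_spl hN f (fun i => (⟨z i / b ^ n', hz1 i⟩ : Fin (b ^ ℓ))) (hψ _).zero (hψ _).off
        rw [h1, h2]
        have h3 := (hψ (fun i => ⟨z i / b ^ n', hz1 i⟩)).bdd n' _ hz2 u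
        linarith
    · rw [zm_of_not_mem hu, norm_zero]
      linarith

/-- The constant for close functions. -/
noncomputable def C3 (ι : Type) [Fintype ι] (R : ℝ) (K : ℕ) : ℝ :=
  (2 * (1 + R + 2)) ^ Fintype.card ι + Fintype.card ι * log (2 * K + 1) +
    Fintype.card ι * log (2 * K + 1)

theorem C3_nonneg {R : ℝ} (hR : 0 ≤ R) (K : ℕ) : 0 ≤ C3 ι R K := by
  have h3 : 0 ≤ log (2 * (K:ℝ) + 1) := Real.log_nonneg (by
    have : (0:ℝ) ≤ K := by positivity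
    linarith)
  unfold C3
  positivity

theorem En_close [NeZero b] (hb : 2 ≤ b) {R E : ℝ} {Z Z' : (ι → ℝ) → ι → ℝ} (h : Bz b R Z)
    (h' : Bz b R Z') {n : ℕ} (hE : ∀ w : ι → Fin (b ^ n), ‖X b n Z' w - X b n Z w‖ ≤ E) {K : ℕ}
    (hK : 1 + R + 1 ≤ K) (hK2 : 2 * E + 2 ≤ K) : En b Z n ≤ En b Z' n + C3 ι R K := by
  have h1 := h.En_le_hf (by omega) n
  have h2 := h'.hf_upper hb n hK
  have h3 := hf_perturb (fun w : ι → Fin (b ^ n) => X b n Z w) (fun w => X b n Z' w) 0 (E := E)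
    (fun w => by simpa using hE w) hK2
  unfold C3
  linarith

theorem X_spl_close (hb : 0 < b) {f : (ι → ℝ) → ι → ℝ} {ℓ : ℕ}
    {ψ : (ι → Fin (b ^ ℓ)) → (ι → ℝ) → ι → ℝ} {ε : ℝ}
    (h : ∀ w, ∀ y ∈ cube ι, ‖zm (b ^ ℓ) (dv w) f y - ψ w y‖ ≤ ε) {t : ℝ} {I : Finset ι}
    {P : (ι → ℝ) →ₗ[ℝ] (ι → ℝ)} (hP : Adm I P) {n : ℕ} {E : ℝ}
    (hn : (b:ℝ) ^ n * (((b ^ ℓ : ℕ) : ℝ)⁻¹ * ε) ≤ E) (w : ι → Fin (b ^ n)) :
    ‖X b n (pf P (spl (b ^ ℓ) f ψ) t) w - X b n (pf P f t) w‖ ≤ 2 ^ Fintype.card ι * E := by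
  have hb0 : (0:ℝ) < b := by exact_mod_cast hb
  have hN : 0 < b ^ ℓ := by positivity
  have hc := corner_mem_cube (dv_lt w)
  unfold X pf
  rw [← smul_sub, ← map_sub, ft_mem _ _ hc, ft_mem _ _ hc, add_sub_add_right_eq_sub, norm_smul,
    Real.norm_of_nonneg (by positivity)]
  have h1 := spl_close hN f h hc
  rw [norm_sub_rev] at h1
  have h2 := hP.norm_le' (spl (b ^ ℓ) f ψ (((b ^ n : ℕ) : ℝ)⁻¹ • nv (dv w)) -
    f (((b ^ n : ℕ) : ℝ)⁻¹ • nv (dv w)))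
  have h3 : (0:ℝ) ≤ 2 ^ Fintype.card ι := by positivity
  have h4 : (0:ℝ) < (b:ℝ) ^ n := by positivity
  calc (b:ℝ) ^ n * ‖P (spl (b ^ ℓ) f ψ (((b ^ n : ℕ) : ℝ)⁻¹ • nv (dv w)) -
      f (((b ^ n : ℕ) : ℝ)⁻¹ • nv (dv w)))‖
      ≤ (b:ℝ) ^ n * (2 ^ Fintype.card ι * (((b ^ ℓ : ℕ) : ℝ)⁻¹ * ε)) := by
        refine mul_le_mul_of_nonneg_left ?_ h4.le
        exact h2.trans (mul_le_mul_of_nonneg_left h1 h3)
    _ = 2 ^ Fintype.card ι * ((b:ℝ) ^ n * (((b ^ ℓ : ℕ) : ℝ)⁻¹ * ε)) := by ring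
    _ ≤ 2 ^ Fintype.card ι * E := mul_le_mul_of_nonneg_left hn h3

/-- The entropies are close. -/
theorem En_spl [NeZero b] (hb : 2 ≤ b) {R : ℝ} {f : (ι → ℝ) → ι → ℝ} (hf : Bz b R f) {ℓ : ℕ}
    {ψ : (ι → Fin (b ^ ℓ)) → (ι → ℝ) → ι → ℝ} (hψ : ∀ w, Bz b R (ψ w)) {ε : ℝ}
    (hε : ε ≤ 1) (h : ∀ w, ∀ y ∈ cube ι, ‖zm (b ^ ℓ) (dv w) f y - ψ w y‖ ≤ ε) {t : ℝ}
    (ht : |t| ≤ 1) {I : Finset ι} {P : (ι → ℝ) →ₗ[ℝ] (ι → ℝ)} (hP : Adm I P) {n : ℕ} {E : ℝ}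
    (hn : (b:ℝ) ^ n * (((b ^ ℓ : ℕ) : ℝ)⁻¹ * ε) ≤ E) {K : ℕ} (hK : 1 + R2 ι (R + 2) + 1 ≤ K)
    (hK2 : 2 * (2 ^ Fintype.card ι * E) + 2 ≤ (K:ℝ)) :
    En b (pf P f t) n ≤ En b (pf P (spl (b ^ ℓ) f ψ) t) n + C3 ι (R2 ι (R + 2)) K ∧
      En b (pf P (spl (b ^ ℓ) f ψ) t) n ≤ En b (pf P f t) n + C3 ι (R2 ι (R + 2)) K := by
  have hbp : 0 < b := by omega
  have h1 : Bz b (R2 ι (R + 2)) (pf P f t) := (hf.mono (by linarith)).pf hbp ht hP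
  have h2 : Bz b (R2 ι (R + 2)) (pf P (spl (b ^ ℓ) f ψ) t) := (spl_bz hbp hf hψ hε h).pf hbp ht hP
  have h3 := X_spl_close hbp h (t := t) hP hn
  refine ⟨En_close hb h1 h2 h3 hK hK2, En_close hb h2 h1 (fun w => ?_) hK hK2⟩
  rw [norm_sub_rev]
  exact h3 w

/-- The bad parameters are the same. -/
theorem bdn_spl (hb : 0 < b) {f : (ι → ℝ) → ι → ℝ} {ℓ : ℕ}
    {ψ : (ι → Fin (b ^ ℓ)) → (ι → ℝ) → ι → ℝ} (h0 : ∀ w, ψ w 0 = 0) (A : ℕ) :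
    bdn b (spl (b ^ ℓ) f ψ) A ℓ = bdn b f A ℓ := by
  have hX : ∀ w : ι → Fin (b ^ ℓ), X b ℓ (spl (b ^ ℓ) f ψ) w = X b ℓ f w := by
    intro w
    unfold X
    have h1 := spl_cell (pow_pos hb ℓ) f ψ w (zero_mem_cube (ι := ι))
    rw [add_zero, h0, smul_zero, add_zero] at h1
    rw [h1]
  unfold bdn bd1 mX
  simp only [hX]

end Pool.Agent.V7H68.HZ
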