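import Pool.Agent.V7H68.HZ.Pt2
import Pool.Agent.V7H68.UF.Core

/-!
Images of sets of positive outer measure at almost all heights.
-/

namespace Pool.Agent.V7H68.HZ

open Finset Real MeasureTheory SS MS UF Filter
open scoped ENNReal

set_option linter.unusedSectionVars false

variable {ι : Type} [Fintype ι] [DecidableEq ι] {b : ℕ}

theorem images2 [Nonempty ι] (hb : 2 ≤ b) {R : ℝ} {h : ℝ} (hh : 0 ≤ h)
    {g : (ι → ℝ) → ι → ℝ} (hg : Bz b R g) (d : ℕ)
    (hlow : ∀ ε : ℝ, 0 < ε → ∃ᶠ j : ℕ in atTop, CovAt b d (Cd (Fintype.card ι) d) j g ∧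
      RelAt b (Cd (Fintype.card ι) d) j (h + ε) g) {F : (ι → ℝ) → ι → ℝ}
    (hF : ∀ᵐ v ∂(volume.restrict (cube ι)), DifferentiableAt ℝ F v) :
    ∀ᵐ t : ℝ, |t| ≤ 1 → ∀ σ : ℝ, 0 ≤ σ → σ < Fintype.card ι - h → ∀ Y : Set (ι → ℝ),
      Y ⊆ cube ι → volume Y ≠ 0 → μH[σ] ((fun u => g u + F u + t • u) '' Y) ≠ 0 := by
  classical
  have : NeZero b := ⟨by omega⟩
  have hbp : 0 < b := by omega
  have hb1 : (1:ℝ) < b := by exact_mod_cast (by omega : 1 < b)
  have hlb : 0 < log b := Real.log_pos hb1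
  have hR0 : 0 ≤ R := hg.R0
  filter_upwards [ae_good2 hb hg (measurable_fderiv ℝ F) d] with t ht
  intro ht1 σ hσ0 hσ Y hYc hY
  set X : (ι → ℝ) → ι → ℝ := fun u => g u + F u + t • u with hX
  have hXm : AEMeasurable X (volume.restrict (cube ι)) :=
    (hg.meas.aemeasurable.add (aemeasurable_of_diff hF)).add
      (measurable_id.const_smul t).aemeasurable
  set m : ℝ := (Fintype.card ι : ℝ) with hm
  set K0 : ℝ := m * log b with hK0
  set hE : ℝ := h * log b with hhE
  have hE0 : 0 ≤ hE := by positivity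
  set σ' : ℝ := (σ + (m - h)) / 2 with hσ'
  have hσσ' : σ < σ' := by rw [hσ']; linarith
  have hσ'm : σ' < m - h := by rw [hσ']; linarith
  set η : ℝ := (m - h - σ') * log b / 2 with hη
  have hη0 : 0 < η := by
    have h1 : 0 < m - h - σ' := by linarith
    rw [hη]
    positivity
  -- the constants
  set C1 : ℕ → ℝ := fun j => (2 * (R + j + 4)) ^ Fintype.card ι + m * log 9 with hC1
  set K : ℕ → ℕ := fun j => ⌈R + j + 4⌉₊ with hK
  set cst : ℕ → ℝ := fun j => C1 j + m * log (2 * K j + 1) + 2 with hcst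
  set V : ℕ → ℕ → Set (ι → ℝ) := fun j q => {v | DifferentiableAt ℝ F v ∧
    ‖fderiv ℝ F v‖ ≤ j ∧ cst j ≤ η * q ∧ ∀ (k : ℕ) (z : ι → ℕ), (∀ i, z i < b ^ k) →
      (K0 - hE - η) * q ≤ En b (ft (fM (zm (b ^ k) z g) (fderiv ℝ F v)) t) q} with hV
  have hcover : ∀ v, DifferentiableAt ℝ F v → AllGood2 b g (fderiv ℝ F v) d t →
      ∃ j q : ℕ, 1 ≤ q ∧ v ∈ V j q := by
    intro v hv hal
    have hal1 := hal ht1
    set M := fderiv ℝ F v with hM
    set j := ⌈‖M‖⌉₊ with hj
    have hMj : ‖M‖ ≤ j := Nat.le_ceil _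
    obtain ⟨N0, hN0⟩ := one_class (ι := ι) hb (Cz_zc hbp hg (le_refl ‖M‖)) (by positivity) ht1
      (A := Ad (Fintype.card ι) d) hE0 (by
        intro ε hε
        refine ((hlow (ε / log b) (by positivity)).and_eventually
          (hal1.and (eventually_ge_atTop 1))).mono ?_
        rintro ℓ ⟨⟨h1, h2⟩, h3, h4⟩
        refine ⟨?_, ?_⟩
        · rintro Z ⟨k, z, hz, rfl⟩
          exact h3 h1 k z hz
        · have h5 := Cz_rc hb (c := (Fintype.card ι + 1) * (Ad (Fintype.card ι) d + 1) + 1) h4 (by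
            have e1 : (Fintype.card ι + 1) * (Ad (Fintype.card ι) d + 1) + 1 + 1 =
              Cd (Fintype.card ι) d := by unfold Cd; ring
            rw [e1]
            exact h2) M
          have e2 : (h + ε / log b) * log b = hE + ε := by
            rw [hhE]
            field_simp
          rwa [e2] at h5) hη0
    obtain ⟨q1, hq1⟩ := exists_nat_gt (cst j / η)
    rw [div_lt_iff₀ hη0] at hq1
    refine ⟨j, N0 + q1 + 1, by omega, hv, hMj, ?_, fun k z hz => ?_⟩
    · have e1 : (q1:ℝ) ≤ ((N0 + q1 + 1 : ℕ) : ℝ) := by exact_mod_cast (by omega)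
      have e2 := mul_le_mul_of_nonneg_left e1 hη0.le
      linarith
    · exact hN0 (N0 + q1 + 1) (by omega) _ ⟨k, z, hz, rfl⟩
  -- a set on which everything is uniform
  set V' : ℕ → ℕ → ℕ → Set (ι → ℝ) := fun j q n0 => {v | v ∈ V j q ∧
    ∀ x : St ι, n0 ≤ x.1 → v ∈ cell (b ^ q) x → ∀ u ∈ cell (b ^ q) x,
      ‖F u - F (corner (b ^ q) x) - fderiv ℝ F v (u - corner (b ^ q) x)‖ ≤
        ((((b ^ q : ℕ) : ℝ)) ^ (x.1 + 1))⁻¹} with hV'
  obtain ⟨j, q, n0, hq1, hYV⟩ : ∃ j q n0 : ℕ, 1 ≤ q ∧ volume (Y ∩ V' j q n0) ≠ 0 := by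
    by_contra hcon
    simp only [not_exists, not_and, not_not] at hcon
    apply hY
    have hnull : volume {v | ¬ (v ∈ cube ι → DifferentiableAt ℝ F v ∧
        AllGood2 b g (fderiv ℝ F v) d t)} = 0 := by
      have h1 := (ae_restrict_iff' cube_meas).1 (hF.and ht)
      exact h1
    have hsub : Y ⊆ (⋃ j : ℕ, ⋃ q : ℕ, ⋃ n0 : ℕ, Y ∩ V' j (q + 1) n0) ∪
        {v | ¬ (v ∈ cube ι → DifferentiableAt ℝ F v ∧ AllGood2 b g (fderiv ℝ F v) d t)} := by
      intro v hv
      by_cases hg : v ∈ cube ι → DifferentiableAt ℝ F v ∧ AllGood2 b g (fderiv ℝ F v) d t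
      · left
        obtain ⟨hg1, hg2⟩ := hg (hYc hv)
        obtain ⟨j, q, hq, hvV⟩ := hcover v hg1 hg2
        obtain ⟨p, rfl⟩ : ∃ p, q = p + 1 := ⟨q - 1, by omega⟩
        have hβ2 : 2 ≤ b ^ (p + 1) := le_trans hb (Nat.le_self_pow (by omega) b)
        obtain ⟨n0, hn0⟩ := cell_diff hg1 hβ2
        exact Set.mem_iUnion.2 ⟨j, Set.mem_iUnion.2 ⟨p, Set.mem_iUnion.2 ⟨n0, hv, hvV, hn0⟩⟩⟩
      · right
        exact hg
    refine measure_mono_null hsub (measure_union_null ?_ hnull)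
    rw [measure_iUnion_null_iff]
    intro j
    rw [measure_iUnion_null_iff]
    intro q
    rw [measure_iUnion_null_iff]
    intro n0
    exact hcon j (q + 1) n0 (by omega)
  set β : ℕ := b ^ q with hβ
  have hβ2 : 2 ≤ β := le_trans hb (Nat.le_self_pow (by omega) b)
  have : NeZero β := ⟨by omega⟩
  have hcj : cst j ≤ η * q := by
    obtain ⟨v, hv⟩ := nonempty_of_measure_ne_zero hYV
    exact hv.2.1.2.2.1
  have hlogβ : log (β:ℝ) = q * log b := by
    rw [hβ]
    push_cast
    rw [Real.log_pow]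
  have h1 := frost hβ2 hXm (h := (K0 - hE - η) * q - C1 j) (R := R + j + 2) (K := K j) (σ := σ)
    (σ' := σ') (by
      rw [hK]
      have := Nat.le_ceil (R + j + 4)
      linarith) hσ0 hσσ' (by
      rw [hlogβ, ← hm]
      have e1 : (K0 - hE - η) * q = σ' * (q * log b) + η * q := by
        have e2 : K0 - hE - η = σ' * log b + η := by
          rw [hK0, hhE, hη]
          ring
        rw [e2]
        ring
      rw [e1]
      rw [hcst] at hcj
      simp only at hcj
      linarith) (Y := Y ∩ V' j q n0) (Set.inter_subset_left.trans hYc) hYV (n0 := n0) (by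
      rintro u ⟨huY, huV, hu2⟩ x hx hux
      have hins : ∀ i, x.2 i < b ^ (q * x.1) := by
        intro i
        rw [pow_mul, ← hβ]
        exact cell_lt (by omega) (hYc huY) hux i
      have hpow : β ^ x.1 = b ^ (q * x.1) := by rw [hβ, pow_mul]
      have hF' := hu2 x hx hux
      constructor
      · have e1 := huV.2.2.2 (q * x.1) x.2 hins
        have e2 := ent_label (hg.zoom hbp hins) hbp huV.2.1 ht1 q
        have e3 := cell_ent (β := β) (by omega) (f := g) (F := F) (t := t)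
          (M := fderiv ℝ F u) (x := x) hF'
        rw [hpow] at e3
        rw [hC1]
        simp only
        rw [hX]
        have e4 : log (Fintype.card (ι → Fin (b ^ q))) = log (Fintype.card (ι → Fin β)) := rfl
        rw [e4] at e2
        linarith
      · intro v hv
        refine cell_norm (by omega) (f := g) (F := F) ht1 (fun w => ?_)
          ⟨fderiv ℝ F u, huV.2.1, hF'⟩ hv
        rw [hpow]
        exact hg.bdd _ _ hins w)
  intro h0
  apply h1
  exact measure_mono_null (Set.image_mono Set.inter_subset_left) h0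

end Pool.Agent.V7H68.HZ
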