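import Pool.Agent.V7H68.MS.Global

/-!
From images at bounded heights, cell by cell, to lines.
-/

namespace Pool.Agent.V7H68.HZ

open Finset Real MeasureTheory SS MS Filter
open scoped ENNReal NNReal

set_option linter.unusedSectionVars false

variable {ι : Type} [Fintype ι] [DecidableEq ι]

/-- Large images at almost all bounded heights, for all perturbations that are differentiable almost
everywhere. -/
def ImgOK (d : ℝ) (g : (ι → ℝ) → ι → ℝ) : Prop :=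
  ∀ F : (ι → ℝ) → ι → ℝ, (∀ᵐ v ∂(volume.restrict (cube ι)), DifferentiableAt ℝ F v) →
    ∀ᵐ t : ℝ, |t| ≤ 1 → ∀ σ : ℝ, 0 ≤ σ → σ < d → ∀ Y : Set (ι → ℝ), Y ⊆ cube ι →
      volume Y ≠ 0 → μH[σ] ((fun u => g u + F u + t • u) '' Y) ≠ 0

theorem ImgOK.all {d : ℝ} {g : (ι → ℝ) → ι → ℝ} (hg : ImgOK d g) {F : (ι → ℝ) → ι → ℝ}
    (hF : ∀ᵐ v ∂(volume.restrict (cube ι)), DifferentiableAt ℝ F v) :
    ∀ᵐ t : ℝ, ∀ σ : ℝ, 0 ≤ σ → σ < d → ∀ Y : Set (ι → ℝ), Y ⊆ cube ι →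
      volume Y ≠ 0 → μH[σ] ((fun u => g u + F u + t • u) '' Y) ≠ 0 := by
  have h1 : ∀ᵐ t : ℝ, ∀ k : ℤ, |t - k| ≤ 1 → ∀ σ : ℝ, 0 ≤ σ → σ < d → ∀ Y : Set (ι → ℝ),
      Y ⊆ cube ι → volume Y ≠ 0 →
      μH[σ] ((fun u => g u + (F u + (k:ℝ) • u) + (t - k) • u) '' Y) ≠ 0 := by
    rw [ae_all_iff]
    intro k
    have hFk : ∀ᵐ v ∂(volume.restrict (cube ι)),
        DifferentiableAt ℝ (fun u => F u + (k:ℝ) • u) v := by
      filter_upwards [hF] with v hv
      exact hv.add (differentiableAt_id.const_smul (k:ℝ))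
    exact (measurePreserving_sub_right volume (k:ℝ)).quasiMeasurePreserving.ae (hg _ hFk)
  filter_upwards [h1] with t ht
  intro σ h0 hσ Y hYc hY
  have h2 := ht ⌊t⌋ (by
    have e1 := Int.floor_le t
    have e2 := Int.lt_floor_add_one t
    rw [abs_le]
    constructor <;> linarith) σ h0 hσ Y hYc hY
  have h3 : (fun u : ι → ℝ => g u + (F u + ((⌊t⌋ : ℤ) : ℝ) • u) + (t - ((⌊t⌋ : ℤ) : ℝ)) • u) =
      fun u => g u + F u + t • u := by
    funext u
    rw [sub_smul]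
    abel
  rwa [h3] at h2

/-- One cell. -/
theorem cell_img {b : ℕ} (hb : 2 ≤ b) {d : ℝ} {g F : (ι → ℝ) → ι → ℝ}
    (hF : ∀ᵐ v ∂(volume.restrict (cube ι)), DifferentiableAt ℝ F v) {x : St ι}
    (hx : ∀ i, x.2 i < b ^ x.1) (hC : ImgOK d (zm (b ^ x.1) x.2 g)) :
    ∀ᵐ t : ℝ, ∀ σ : ℝ, 0 ≤ σ → σ < d → ∀ Y : Set (ι → ℝ), Y ⊆ cube ι →
      Y ⊆ cell b x → volume Y ≠ 0 → μH[σ] ((fun u => g u + F u + t • u) '' Y) ≠ 0 := by
  have hb' : 0 < b := by omega
  have hb0 : (0:ℝ) < b := by exact_mod_cast hb'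
  obtain ⟨n, z⟩ := x
  simp only at hx hC
  set N : ℝ := (b:ℝ) ^ n with hN
  have hN0 : 0 < N := by positivity
  have hNc : ((b ^ n : ℕ) : ℝ) = N := by push_cast; rfl
  set A : (ι → ℝ) → ι → ℝ := fun y => N⁻¹ • (nv z + y) with hA
  set F' : (ι → ℝ) → ι → ℝ := fun y => N • F (A y) with hF'
  have hAcube : ∀ y ∈ cube ι, A y ∈ cube ι := by
    intro y hy
    have := affine_mem_cube hx hy
    rwa [hNc] at this
  have hF'd : ∀ᵐ y ∂(volume.restrict (cube ι)), DifferentiableAt ℝ F' y := by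
    rw [ae_restrict_iff' cube_meas] at hF ⊢
    have h1 : volume {v | ¬ (v ∈ cube ι → DifferentiableAt ℝ F v)} = 0 := hF
    have h2 := vol_affine (show 0 < N⁻¹ by positivity) (fun i => - (N⁻¹ * (z i : ℝ)))
      {v | ¬ (v ∈ cube ι → DifferentiableAt ℝ F v)}
    rw [h1, mul_zero] at h2
    refine measure_mono_null ?_ h2
    intro y hy
    simp only [Set.mem_ofPred_eq, Classical.not_imp] at hy ⊢
    have hAy : (fun i => N⁻¹ * y i - -(N⁻¹ * (z i : ℝ))) = A y := by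
      funext i
      simp only [hA, Pi.smul_apply, Pi.add_apply, nv, smul_eq_mul]
      ring
    have hy' := hy
    simp only [Set.mem_compl_iff, Set.mem_ofPred_eq, Classical.not_imp] at hy'
    rw [hAy]
    refine ⟨hAcube y hy'.1, fun hd => hy'.2 ?_⟩
    have hAd : DifferentiableAt ℝ A y := by
      rw [hA]
      fun_prop
    exact (hd.comp y hAd).const_smul N
  filter_upwards [hC.all hF'd] with t ht
  intro σ hσ0 hσ Y hYc hYx hY h0
  set Y' : Set (ι → ℝ) := {y | A y ∈ Y} with hY'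
  have hAT : ∀ v : ι → ℝ, A (fun i => N * v i - (z i : ℝ)) = v := by
    intro v
    funext i
    simp only [hA, Pi.smul_apply, Pi.add_apply, nv, smul_eq_mul]
    field_simp
    ring
  have hTA : ∀ y : ι → ℝ, (fun i => N * A y i - (z i : ℝ)) = y := by
    intro y
    funext i
    simp only [hA, Pi.smul_apply, Pi.add_apply, nv, smul_eq_mul]
    field_simp
    ring
  have hY'c : Y' ⊆ cube ι := by
    intro y hy
    have h1 := hYx hy
    have h2 : (fun i => N * A y i - (z i : ℝ)) ∈ cube ι := h1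
    rwa [hTA] at h2
  have hY'0 : volume Y' ≠ 0 := by
    intro h1
    apply hY
    have h2 := vol_affine hN0 (fun i => (z i : ℝ)) Y'
    rw [h1, mul_zero] at h2
    refine measure_mono_null ?_ h2
    intro v hv
    change A (fun i => N * v i - (z i : ℝ)) ∈ Y
    rw [hAT]
    exact hv
  apply ht σ hσ0 hσ Y' hY'c hY'0
  set c : ι → ℝ := N • g (N⁻¹ • nv z) + t • nv z with hc
  have hsub : (fun u => zm (b ^ n) z g u + F' u + t • u) '' Y' ⊆
      (fun p : ι → ℝ => N • p - c) '' ((fun u => g u + F u + t • u) '' Y) := by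
    rintro _ ⟨y, hy, rfl⟩
    refine ⟨_, ⟨A y, hy, rfl⟩, ?_⟩
    simp only
    rw [zm_of_mem (hY'c hy), hNc, hF', hc, smul_add N (g (A y) + F (A y)), smul_add N (g (A y)),
      smul_sub, smul_comm N t (A y)]
    have h1 : N • A y = nv z + y := by rw [hA]; simp only; rw [smul_smul, mul_inv_cancel₀ hN0.ne', one_smul]
    have h2 : N⁻¹ • (nv z + y) = A y := rfl
    rw [h1, h2, smul_add t]
    abel
  refine measure_mono_null hsub ?_
  have hlip : LipschitzWith N.toNNReal (fun p : ι → ℝ => N • p - c) := by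
    refine LipschitzWith.of_dist_le_mul fun p p' => ?_
    rw [dist_eq_norm, dist_eq_norm, Real.coe_toNNReal _ hN0.le]
    have : N • p - c - (N • p' - c) = N • (p - p') := by rw [smul_sub]; abel
    rw [this, norm_smul, Real.norm_of_nonneg hN0.le]
  have h1 := hlip.hausdorffMeasure_image_le hσ0 ((fun u => g u + F u + t • u) '' Y)
  rw [h0, mul_zero] at h1
  exact le_antisymm h1 zero_le

/-- The hypothesis at almost all points. -/
def LocOK (b : ℕ) (d : ℝ) (g : (ι → ℝ) → ι → ℝ) : Prop :=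
  ∀ᵐ v ∂(volume.restrict (cube ι)), ∃ x : St ι, (∀ i, x.2 i < b ^ x.1) ∧ v ∈ cell b x ∧
    ImgOK d (zm (b ^ x.1) x.2 g)

theorem loc_images {b : ℕ} (hb : 2 ≤ b) {d : ℝ} {g F : (ι → ℝ) → ι → ℝ}
    (hF : ∀ᵐ v ∂(volume.restrict (cube ι)), DifferentiableAt ℝ F v) (hg : LocOK b d g) :
    ∀ᵐ t : ℝ, ∀ σ : ℝ, 0 ≤ σ → σ < d → ∀ Y : Set (ι → ℝ), Y ⊆ cube ι →
      volume Y ≠ 0 → μH[σ] ((fun u => g u + F u + t • u) '' Y) ≠ 0 := by
  have hall : ∀ᵐ t : ℝ, ∀ x : St ι, ((∀ i, x.2 i < b ^ x.1) ∧ ImgOK d (zm (b ^ x.1) x.2 g)) →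
      ∀ σ : ℝ, 0 ≤ σ → σ < d → ∀ Y : Set (ι → ℝ), Y ⊆ cube ι →
      Y ⊆ cell b x → volume Y ≠ 0 → μH[σ] ((fun u => g u + F u + t • u) '' Y) ≠ 0 := by
    rw [ae_all_iff]
    intro x
    by_cases hx : (∀ i, x.2 i < b ^ x.1) ∧ ImgOK d (zm (b ^ x.1) x.2 g)
    · filter_upwards [cell_img hb hF hx.1 hx.2] with t ht _
      exact ht
    · exact Filter.Eventually.of_forall fun t hx' => absurd hx' hx
  have hnull : volume {v | ¬ (v ∈ cube ι → ∃ x : St ι, (∀ i, x.2 i < b ^ x.1) ∧ v ∈ cell b x ∧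
      ImgOK d (zm (b ^ x.1) x.2 g))} = 0 := (ae_restrict_iff' cube_meas).1 hg
  filter_upwards [hall] with t ht
  intro σ hσ0 hσ Y hYc hY h0
  apply hY
  have hsub : Y ⊆ {v | ¬ (v ∈ cube ι → ∃ x : St ι, (∀ i, x.2 i < b ^ x.1) ∧ v ∈ cell b x ∧
      ImgOK d (zm (b ^ x.1) x.2 g))} ∪ ⋃ x : St ι, {v | v ∈ Y ∧ v ∈ cell b x ∧
      (∀ i, x.2 i < b ^ x.1) ∧ ImgOK d (zm (b ^ x.1) x.2 g)} := by
    intro v hv
    by_cases hn : v ∈ cube ι → ∃ x : St ι, (∀ i, x.2 i < b ^ x.1) ∧ v ∈ cell b x ∧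
      ImgOK d (zm (b ^ x.1) x.2 g)
    · right
      obtain ⟨x, hx, hvx, hC⟩ := hn (hYc hv)
      exact Set.mem_iUnion.2 ⟨x, hv, hvx, hx, hC⟩
    · exact Or.inl hn
  refine measure_mono_null hsub (measure_union_null hnull ?_)
  rw [measure_iUnion_null_iff]
  intro x
  by_contra hne
  by_cases hx : (∀ i, x.2 i < b ^ x.1) ∧ ImgOK d (zm (b ^ x.1) x.2 g)
  · refine ht x hx σ hσ0 hσ _ (fun v hv => hYc hv.1) (fun v hv => hv.2.1) hne ?_
    refine measure_mono_null (Set.image_mono ?_) h0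
    exact fun v hv => hv.1
  · apply hne
    have : {v | v ∈ Y ∧ v ∈ cell b x ∧ (∀ i, x.2 i < b ^ x.1) ∧
      ImgOK d (zm (b ^ x.1) x.2 g)} = ∅ := by
      ext v
      simp only [Set.mem_ofPred_eq, Set.mem_empty_iff_false, iff_false]
      exact fun hv => hx hv.2.2
    rw [this, measure_empty]

/-- From images to lines. -/
theorem loc_lines [Nonempty ι] {b : ℕ} (hb : 2 ≤ b) {d : ℝ} (hd : 0 < d)
    {g F : (ι → ℝ) → ι → ℝ}
    (hgm : AEMeasurable g (volume.restrict (cube ι)))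
    (hF : ∀ᵐ v ∂(volume.restrict (cube ι)), DifferentiableAt ℝ F v) (hg : LocOK b d g)
    {K : Set ((ι → ℝ) × ℝ)} (hK : dimH K < ENNReal.ofReal (d + 1)) :
    ∀ᵐ v ∂(volume.restrict (cube ι)), volume {t : ℝ | (g v + F v + t • v, t) ∈ K} = 0 := by
  have ham : AEMeasurable (fun v => g v + F v) (volume.restrict (cube ι)) :=
    hgm.add (aemeasurable_of_diff hF)
  have h1 : max (dimH K) 1 < ENNReal.ofReal (d + 1) := by
    refine max_lt hK ?_
    rw [← ENNReal.ofReal_one]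
    exact (ENNReal.ofReal_lt_ofReal_iff (by linarith)).2 (by linarith)
  obtain ⟨e, he1, he2⟩ := ENNReal.lt_iff_exists_nnreal_btwn.1 h1
  have he3 : dimH K < e := (le_max_left _ _).trans_lt he1
  have he4 : (1:ℝ≥0) < e := by exact_mod_cast (le_max_right (dimH K) 1).trans_lt he1
  have he5 : (e:ℝ) < d + 1 := by
    have h2 : ENNReal.ofReal (e:ℝ) < ENNReal.ofReal (d + 1) := by
      rwa [ENNReal.ofReal_coe_nnreal]
    exact (ENNReal.ofReal_lt_ofReal_iff (by linarith)).1 h2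
  have hnull := hausdorffMeasure_of_dimH_lt he3
  have he6 : (1:ℝ) < e := by exact_mod_cast he4
  set σ : ℝ := (e:ℝ) - 1 with hσ
  have hσ0 : 0 < σ := by rw [hσ]; linarith
  have h2 : μH[σ + 1] K = 0 := by
    rw [hσ, sub_add_cancel]
    exact hnull
  refine lines_of_images ham hσ0 ?_ h2
  filter_upwards [loc_images hb hF hg] with t ht
  intro Y hYc hY
  exact ht σ hσ0.le (by rw [hσ]; linarith) Y hYc hY

end Pool.Agent.V7H68.HZ
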