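import Pool.Agent.V7H68.HZ.Det

/-!
If the set of all zooms can be covered by few small balls then almost all parameters are good for
all zooms at all large levels.
-/

namespace Pool.Agent.V7H68.HZ

open Finset Real MeasureTheory SS MS UF Filter
open scoped ENNReal

set_option linter.unusedSectionVars false

variable {ι : Type} [Fintype ι] [DecidableEq ι] {b : ℕ}

/-- The zooms of `g` are covered by `b^(κ j)` balls of radius `b^(-j)`, for all large `j`. -/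
def Net (b : ℕ) (κ : ℝ) (g : (ι → ℝ) → ι → ℝ) : Prop :=
  ∀ᶠ j : ℕ in atTop, ∃ N : Finset ((ι → ℝ) → ι → ℝ), (N.card : ℝ) ≤ (b:ℝ) ^ (κ * j) ∧
    ∀ (k : ℕ) (z : ι → ℕ), (∀ i, z i < b ^ k) → ∃ φ ∈ N, ∀ y ∈ cube ι,
      ‖zm (b ^ k) z g y - φ y‖ ≤ ((b:ℝ) ^ j)⁻¹

/-- The bad parameters of all zooms. -/
def BadU (b : ℕ) (g : (ι → ℝ) → ι → ℝ) (M : (ι → ℝ) →L[ℝ] (ι → ℝ)) (A n : ℕ) : Set ℝ :=
  {t | |t| ≤ 1 ∧ ∃ (k : ℕ) (z : ι → ℕ), (∀ i, z i < b ^ k) ∧ t ∈ bdn b (fM (zm (b ^ k) z g) M) A n}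

theorem exists_A {κ : ℝ} (m : ℕ) (hκm : κ * (m + 1) < 1) :
    ∃ A : ℕ, κ * ((((A + 1) * (m + 1) + 2 : ℕ) : ℝ)) + m * (m + 2) + 1 ≤ A := by
  obtain ⟨A, hA⟩ := exists_nat_gt ((κ * (m + 3) + m * (m + 2) + 1) / (1 - κ * (m + 1)))
  rw [div_lt_iff₀ (by linarith)] at hA
  refine ⟨A, ?_⟩
  push_cast
  nlinarith

theorem bad_vol (hb : 2 ≤ b) {R RM κ : ℝ} {g : (ι → ℝ) → ι → ℝ} (hg : Bz b R g) (hκ : 0 ≤ κ)
    (hnet : Net b κ g) {M : (ι → ℝ) →L[ℝ] (ι → ℝ)} (hM : ‖M‖ ≤ RM) {A : ℕ}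
    (hA : κ * ((((A + 1) * (Fintype.card ι + 1) + 2 : ℕ) : ℝ)) +
      Fintype.card ι * (Fintype.card ι + 2) + 1 ≤ A) :
    ∃ n1 : ℕ, ∀ n : ℕ, n1 ≤ n → volume (BadU b g M A n) ≤
      ENNReal.ofReal (2 * Cb ι * (1 / 2) ^ n) := by
  have hbp : 0 < b := by omega
  have hb0 : (0:ℝ) < b := by exact_mod_cast hbp
  have hb1 : (1:ℝ) < b := by exact_mod_cast (by omega : 1 < b)
  have hb2 : (2:ℝ) ≤ b := by exact_mod_cast hb
  set m := Fintype.card ι with hm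
  set A' : ℕ := (A + 1) * (m + 1) + 2 with hA'
  have htend : Tendsto (fun n : ℕ => A' * n) atTop atTop :=
    tendsto_id.const_mul_atTop' (by rw [hA']; positivity)
  have h1 := htend.eventually hnet
  have h2 : ∀ᶠ n : ℕ in atTop, (Nat.factorial (m + 1) : ℝ) * (((m + 1 : ℕ) : ℝ) *
      ((2 * (R + RM) + 3) ^ (m + 1) * 2)) ≤ (b:ℝ) ^ n :=
    (tendsto_pow_atTop_atTop_of_one_lt hb1).eventually_ge_atTop _
  obtain ⟨n1, hn1⟩ := eventually_atTop.1 (h1.and h2)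
  refine ⟨n1, fun n hn => ?_⟩
  obtain ⟨⟨N, hNc, hN⟩, hbig⟩ := hn1 n hn
  have hm0 : m * (m + 2) + 1 ≤ A := by
    have e1 : 0 ≤ κ * ((A' : ℕ) : ℝ) := by positivity
    have e2 : ((m * (m + 2) + 1 : ℕ) : ℝ) ≤ A := by
      push_cast
      linarith
    exact_mod_cast e2
  obtain ⟨d, hd⟩ := Nat.exists_eq_add_of_le hm0
  have hκd : κ * ((A' : ℕ) : ℝ) ≤ d := by
    have e1 : (A:ℝ) = m * (m + 2) + 1 + d := by
      rw [hd]
      push_cast
      ring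
    rw [e1] at hA
    linarith
  set ρ : ℝ := ((b:ℝ) ^ (A * n))⁻¹ with hρ
  have hsub : BadU b g M A n ⊆ ⋃ φ ∈ N, bdr b (fM φ M) (2 * ρ) n := by
    rintro t ⟨ht1, k, z, hz, ht⟩
    obtain ⟨φ, hφN, hφ⟩ := hN k z hz
    refine Set.mem_biUnion hφN ?_
    refine bdn_near hb ((hg.zoom hbp hz).fM hbp hM) ht1 (fun y hy => ?_) hbig ht
    rw [fM_mem _ _ hy, fM_mem _ _ hy, add_sub_add_right_eq_sub]
    have := hφ y hy
    rwa [hA'] at this
  refine (measure_mono hsub).trans ((measure_biUnion_finset_le _ _).trans ?_)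
  have h3 : ∀ φ ∈ N, volume (bdr b (fM φ M) (2 * ρ) n) ≤
      ENNReal.ofReal (Cb ι * ((b:ℝ) ^ (m * (m + 2) * n) * (2 * ρ))) := fun φ _ =>
    bdr_vol hb _ (by positivity) n
  refine (Finset.sum_le_sum h3).trans ?_
  rw [Finset.sum_const, nsmul_eq_mul, ← ENNReal.ofReal_natCast,
    ← ENNReal.ofReal_mul (by positivity)]
  refine ENNReal.ofReal_le_ofReal ?_
  have hCb := Cb_pos ι
  have h4 : (N.card : ℝ) ≤ (b:ℝ) ^ (d * n) := by
    refine hNc.trans ?_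
    rw [← Real.rpow_natCast]
    refine Real.rpow_le_rpow_of_exponent_le hb1.le ?_
    push_cast
    have : (0:ℝ) ≤ n := Nat.cast_nonneg n
    have e1 : κ * (((A' : ℕ) : ℝ) * n) = κ * ((A' : ℕ) : ℝ) * n := by ring
    rw [e1]
    exact mul_le_mul_of_nonneg_right hκd this
  calc (N.card : ℝ) * (Cb ι * ((b:ℝ) ^ (m * (m + 2) * n) * (2 * ρ)))
      ≤ (b:ℝ) ^ (d * n) * (Cb ι * ((b:ℝ) ^ (m * (m + 2) * n) * (2 * ρ))) :=
        mul_le_mul_of_nonneg_right h4 (by positivity)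
    _ = 2 * Cb ι * (((b:ℝ) ^ (d * n) * (b:ℝ) ^ (m * (m + 2) * n)) * ρ) := by ring
    _ = 2 * Cb ι * (((b:ℝ) ^ n)⁻¹) := by
        congr 1
        rw [hρ, hd, ← pow_add]
        have e1 : (m * (m + 2) + 1 + d) * n = (d * n + m * (m + 2) * n) + n := by ring
        rw [e1, pow_add _ _ n, mul_inv, ← mul_assoc, mul_inv_cancel₀ (by positivity), one_mul]
    _ ≤ 2 * Cb ι * (1 / 2) ^ n := by
        refine mul_le_mul_of_nonneg_left ?_ (by positivity)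
        rw [one_div, inv_pow]
        exact inv_anti₀ (by positivity) (pow_le_pow_left₀ (by norm_num) hb2 n)

/-- All zooms are good at all large levels. -/
def AllGood (b : ℕ) (g : (ι → ℝ) → ι → ℝ) (M : (ι → ℝ) →L[ℝ] (ι → ℝ)) (A : ℕ) (t : ℝ) : Prop :=
  |t| ≤ 1 → ∀ᶠ n : ℕ in atTop, ∀ (k : ℕ) (z : ι → ℕ), (∀ i, z i < b ^ k) →
    t ∉ bdn b (fM (zm (b ^ k) z g) M) A n

theorem ae_good_fixed (hb : 2 ≤ b) {R κ : ℝ} {g : (ι → ℝ) → ι → ℝ} (hg : Bz b R g)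
    (hκ : 0 ≤ κ) (hnet : Net b κ g) (M : (ι → ℝ) →L[ℝ] (ι → ℝ)) {A : ℕ}
    (hA : κ * ((((A + 1) * (Fintype.card ι + 1) + 2 : ℕ) : ℝ)) +
      Fintype.card ι * (Fintype.card ι + 2) + 1 ≤ A) : ∀ᵐ t : ℝ, AllGood b g M A t := by
  obtain ⟨n1, hn1⟩ := bad_vol hb hg hκ hnet (le_refl ‖M‖) hA
  have hsum : ∑' n, volume (BadU b g M A (n + n1)) ≠ ⊤ := by
    refine ne_top_of_le_ne_top ?_ (ENNReal.tsum_le_tsum fun n => hn1 (n + n1) (by omega))
    have hs : Summable fun n : ℕ => 2 * Cb ι * (1 / 2 : ℝ) ^ (n + n1) := by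
      have h1 : (fun n : ℕ => 2 * Cb ι * (1 / 2 : ℝ) ^ (n + n1)) =
          fun n : ℕ => (2 * Cb ι * (1 / 2 : ℝ) ^ n1) * (1 / 2 : ℝ) ^ n := by
        funext n
        rw [pow_add]
        ring
      rw [h1]
      exact (summable_geometric_of_lt_one (by norm_num) (by norm_num)).mul_left _
    exact hs.tsum_ofReal_ne_top
  filter_upwards [ae_eventually_notMem hsum] with t ht ht1
  obtain ⟨n0, hn0⟩ := eventually_atTop.1 ht
  filter_upwards [eventually_ge_atTop (n0 + n1)] with n hn k z hz hbad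
  obtain ⟨q, rfl⟩ : ∃ q, n = q + n1 := ⟨n - n1, by omega⟩
  exact hn0 q (by omega) ⟨ht1, k, z, hz, hbad⟩

theorem bdn_joint (Z : (ι → ℝ) → ι → ℝ) {M : (ι → ℝ) → (ι → ℝ) →L[ℝ] (ι → ℝ)}
    (hM : Measurable M) (A n : ℕ) :
    MeasurableSet {p : (ι → ℝ) × ℝ | p.2 ∈ bdn b (fM Z (M p.1)) A n} := by
  have h1 : {p : (ι → ℝ) × ℝ | p.2 ∈ bdn b (fM Z (M p.1)) A n} =
      ⋃ l ∈ Finset.range (Fintype.card ι + 1),
      ⋃ x : (Fin (l + 1) → ι → Fin (b ^ n)) × (ι → Fin (b ^ n)) × (Fin (l + 1) → ι),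
        {p : (ι → ℝ) × ℝ | p.2 ∈ bd1 b n (fM Z (M p.1)) (((b:ℝ) ^ (A * n))⁻¹) x.1 x.2.1 x.2.2} := by
    ext p
    simp only [bdn, Set.mem_ofPred_eq, Set.mem_iUnion]
  rw [h1]
  refine Finset.measurableSet_biUnion _ fun l _ => MeasurableSet.iUnion fun x => ?_
  by_cases hW : (mV b n x.1 x.2.1 x.2.2).det = 0
  · have h2 : {p : (ι → ℝ) × ℝ | p.2 ∈ bd1 b n (fM Z (M p.1)) (((b:ℝ) ^ (A * n))⁻¹)
        x.1 x.2.1 x.2.2} = ∅ := by
      ext p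
      simp [bd1, hW]
    rw [h2]
    exact MeasurableSet.empty
  · have h2 : {p : (ι → ℝ) × ℝ | p.2 ∈ bd1 b n (fM Z (M p.1)) (((b:ℝ) ^ (A * n))⁻¹)
        x.1 x.2.1 x.2.2} =
        {p : (ι → ℝ) × ℝ | |(mX b n (fM Z (M p.1)) x.1 x.2.1 x.2.2 +
          p.2 • mV b n x.1 x.2.1 x.2.2).det| < (((b:ℝ) ^ (A * n))⁻¹) ^ (l + 1)} := by
      ext p
      simp [bd1, hW]
    rw [h2]
    refine measurableSet_lt ?_ measurable_const
    refine continuous_abs.measurable.comp (det_meas fun i j => ?_)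
    simp only [Matrix.add_apply, Matrix.smul_apply, mX, Matrix.of_apply, smul_eq_mul]
    have hXm : ∀ w : ι → Fin (b ^ n), Measurable fun p : (ι → ℝ) × ℝ =>
        UF.X b n (fM Z (M p.1)) w (x.2.2 j) := by
      intro w
      unfold UF.X
      have h3 : ∀ p : (ι → ℝ) × ℝ, ((b:ℝ) ^ n • fM Z (M p.1)
          (((b ^ n : ℕ) : ℝ)⁻¹ • nv (dv w))) (x.2.2 j) =
          (b:ℝ) ^ n * (Z (((b ^ n : ℕ) : ℝ)⁻¹ • nv (dv w)) (x.2.2 j) +
            (M p.1 (((b ^ n : ℕ) : ℝ)⁻¹ • nv (dv w))) (x.2.2 j)) := by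
        intro p
        rw [fM_mem _ _ (corner_mem_cube (dv_lt w))]
        rfl
      simp only [h3]
      refine Measurable.const_mul ?_ _
      refine measurable_const.add ?_
      have h4 : Measurable fun v => M v (((b ^ n : ℕ) : ℝ)⁻¹ • nv (dv w)) := by
        have h5 : Continuous fun T : (ι → ℝ) →L[ℝ] (ι → ℝ) =>
          T (((b ^ n : ℕ) : ℝ)⁻¹ • nv (dv w)) := by fun_prop
        exact h5.measurable.comp hM
      exact ((measurable_pi_apply (x.2.2 j)).comp h4).comp measurable_fst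
    exact ((hXm _).sub (hXm _)).add (measurable_snd.mul_const _)

theorem ae_good (hb : 2 ≤ b) {R κ : ℝ} {g : (ι → ℝ) → ι → ℝ} (hg : Bz b R g)
    (hκ : 0 ≤ κ) (hnet : Net b κ g) {M : (ι → ℝ) → (ι → ℝ) →L[ℝ] (ι → ℝ)} (hM : Measurable M)
    {A : ℕ} (hA : κ * ((((A + 1) * (Fintype.card ι + 1) + 2 : ℕ) : ℝ)) +
      Fintype.card ι * (Fintype.card ι + 2) + 1 ≤ A) :
    ∀ᵐ t : ℝ, ∀ᵐ v ∂(volume.restrict (cube ι)), AllGood b g (M v) A t := by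
  have hm : MeasurableSet {p : (ι → ℝ) × ℝ | AllGood b g (M p.1) A p.2} := by
    have h1 : {p : (ι → ℝ) × ℝ | AllGood b g (M p.1) A p.2} =
        {p : (ι → ℝ) × ℝ | |p.2| ≤ 1}ᶜ ∪ ⋃ n0 : ℕ, ⋂ n : ℕ, ⋂ _ : n0 ≤ n, ⋂ k : ℕ,
          ⋂ z : ι → ℕ, ⋂ _ : (∀ i, z i < b ^ k),
            {p : (ι → ℝ) × ℝ | p.2 ∈ bdn b (fM (zm (b ^ k) z g) (M p.1)) A n}ᶜ := by
      ext p
      simp only [AllGood, Set.mem_ofPred_eq, Set.mem_union, Set.mem_compl_iff, Set.mem_iUnion,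
        Set.mem_iInter, eventually_atTop, imp_iff_not_or]
    rw [h1]
    refine MeasurableSet.union ?_ ?_
    · exact (measurableSet_le (continuous_abs.measurable.comp measurable_snd)
        measurable_const).compl
    · exact MeasurableSet.iUnion fun n0 => MeasurableSet.iInter fun n => MeasurableSet.iInter
        fun _ => MeasurableSet.iInter fun k => MeasurableSet.iInter fun z =>
        MeasurableSet.iInter fun _ => (bdn_joint _ hM A n).compl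
  exact (Measure.ae_ae_comm (μ := volume.restrict (cube ι)) (ν := (volume : Measure ℝ))
    (p := fun v t => AllGood b g (M v) A t) hm).1
    (Eventually.of_forall fun v => ae_good_fixed hb hg hκ hnet (M v) hA)

end Pool.Agent.V7H68.HZ
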