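import Pool.Agent.V7H68.HZ.Net

/-!
The version of the covering argument for single levels.
-/

namespace Pool.Agent.V7H68.HZ

open Finset Real MeasureTheory SS MS UF Filter
open scoped ENNReal

set_option linter.unusedSectionVars false

variable {ι : Type} [Fintype ι] [DecidableEq ι] {b : ℕ}

/-- The zooms of `g` are covered by `b^(d n)` balls of radius `b^(-c n)`. -/
def CovAt (b d c n : ℕ) (g : (ι → ℝ) → ι → ℝ) : Prop :=
  ∃ N : Finset ((ι → ℝ) → ι → ℝ), N.card ≤ b ^ (d * n) ∧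
    ∀ (k : ℕ) (z : ι → ℕ), (∀ i, z i < b ^ k) → ∃ φ ∈ N, ∀ y ∈ cube ι,
      ‖zm (b ^ k) z g y - φ y‖ ≤ ((b:ℝ) ^ (c * n))⁻¹

/-- The exponent of transversality. -/
def Ad (m d : ℕ) : ℕ := m * (m + 2) + 1 + d

/-- The precision. -/
def Cd (m d : ℕ) : ℕ := (Ad m d + 1) * (m + 1) + 2

theorem bad_vol2 (hb : 2 ≤ b) {R RM : ℝ} {g : (ι → ℝ) → ι → ℝ} (hg : Bz b R g)
    {M : (ι → ℝ) →L[ℝ] (ι → ℝ)} (hM : ‖M‖ ≤ RM) (d : ℕ) :
    ∃ n1 : ℕ, ∀ n : ℕ, n1 ≤ n → CovAt b d (Cd (Fintype.card ι) d) n g →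
      volume (BadU b g M (Ad (Fintype.card ι) d) n) ≤ ENNReal.ofReal (2 * Cb ι * (1 / 2) ^ n) := by
  have hbp : 0 < b := by omega
  have hb0 : (0:ℝ) < b := by exact_mod_cast hbp
  have hb1 : (1:ℝ) < b := by exact_mod_cast (by omega : 1 < b)
  have hb2 : (2:ℝ) ≤ b := by exact_mod_cast hb
  set m := Fintype.card ι with hm
  set A : ℕ := Ad m d with hAd
  have hd : A = m * (m + 2) + 1 + d := rfl
  have h2 : ∀ᶠ n : ℕ in atTop, (Nat.factorial (m + 1) : ℝ) * (((m + 1 : ℕ) : ℝ) *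
      ((2 * (R + RM) + 3) ^ (m + 1) * 2)) ≤ (b:ℝ) ^ n :=
    (tendsto_pow_atTop_atTop_of_one_lt hb1).eventually_ge_atTop _
  obtain ⟨n1, hn1⟩ := eventually_atTop.1 h2
  refine ⟨n1, fun n hn hcov => ?_⟩
  obtain ⟨N, hNc, hN⟩ := hcov
  have hbig := hn1 n hn
  set ρ : ℝ := ((b:ℝ) ^ (A * n))⁻¹ with hρ
  have hsub : BadU b g M A n ⊆ ⋃ φ ∈ N, bdr b (fM φ M) (2 * ρ) n := by
    rintro t ⟨ht1, k, z, hz, ht⟩
    obtain ⟨φ, hφN, hφ⟩ := hN k z hz
    refine Set.mem_biUnion hφN ?_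
    refine bdn_near hb ((hg.zoom hbp hz).fM hbp hM) ht1 (fun y hy => ?_) hbig ht
    rw [fM_mem _ _ hy, fM_mem _ _ hy, add_sub_add_right_eq_sub]
    exact hφ y hy
  refine (measure_mono hsub).trans ((measure_biUnion_finset_le _ _).trans ?_)
  have h3 : ∀ φ ∈ N, volume (bdr b (fM φ M) (2 * ρ) n) ≤
      ENNReal.ofReal (Cb ι * ((b:ℝ) ^ (m * (m + 2) * n) * (2 * ρ))) := fun φ _ =>
    bdr_vol hb _ (by positivity) n
  refine (Finset.sum_le_sum h3).trans ?_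
  rw [Finset.sum_const, nsmul_eq_mul, ← ENNReal.ofReal_natCast,
    ← ENNReal.ofReal_mul (by positivity)]
  refine ENNReal.ofReal_le_ofReal ?_
  have hCb := Cb_pos ι
  have h4 : (N.card : ℝ) ≤ (b:ℝ) ^ (d * n) := by exact_mod_cast hNc
  calc (N.card : ℝ) * (Cb ι * ((b:ℝ) ^ (m * (m + 2) * n) * (2 * ρ)))
      ≤ (b:ℝ) ^ (d * n) * (Cb ι * ((b:ℝ) ^ (m * (m + 2) * n) * (2 * ρ))) :=
        mul_le_mul_of_nonneg_right h4 (by positivity)
    _ = 2 * Cb ι * (((b:ℝ) ^ (d * n) * (b:ℝ) ^ (m * (m + 2) * n)) * ρ) := by ring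
    _ = 2 * Cb ι * (((b:ℝ) ^ n)⁻¹) := by
        congr 1
        rw [hρ, hd, ← pow_add]
        have e1 : (m * (m + 2) + 1 + d) * n = (d * n + m * (m + 2) * n) + n := by ring
        rw [e1, pow_add _ _ n, mul_inv, ← mul_assoc, mul_inv_cancel₀ (by positivity), one_mul]
    _ ≤ 2 * Cb ι * (1 / 2) ^ n := by
        refine mul_le_mul_of_nonneg_left ?_ (by positivity)
        rw [one_div, inv_pow]
        exact inv_anti₀ (by positivity) (pow_le_pow_left₀ (by norm_num) hb2 n)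

/-- All zooms are good at all large levels at which there is a covering. -/
def AllGood2 (b : ℕ) (g : (ι → ℝ) → ι → ℝ) (M : (ι → ℝ) →L[ℝ] (ι → ℝ)) (d : ℕ) (t : ℝ) : Prop :=
  |t| ≤ 1 → ∀ᶠ n : ℕ in atTop, CovAt b d (Cd (Fintype.card ι) d) n g →
    ∀ (k : ℕ) (z : ι → ℕ), (∀ i, z i < b ^ k) →
      t ∉ bdn b (fM (zm (b ^ k) z g) M) (Ad (Fintype.card ι) d) n

theorem ae_good_fixed2 (hb : 2 ≤ b) {R : ℝ} {g : (ι → ℝ) → ι → ℝ} (hg : Bz b R g)
    (M : (ι → ℝ) →L[ℝ] (ι → ℝ)) (d : ℕ) : ∀ᵐ t : ℝ, AllGood2 b g M d t := by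
  obtain ⟨n1, hn1⟩ := bad_vol2 hb hg (le_refl ‖M‖) d
  set B : ℕ → Set ℝ := fun n => {t | CovAt b d (Cd (Fintype.card ι) d) n g ∧
    t ∈ BadU b g M (Ad (Fintype.card ι) d) n} with hB
  have hBv : ∀ n, n1 ≤ n → volume (B n) ≤ ENNReal.ofReal (2 * Cb ι * (1 / 2) ^ n) := by
    intro n hn
    by_cases hc : CovAt b d (Cd (Fintype.card ι) d) n g
    · exact (measure_mono fun t ht => ht.2).trans (hn1 n hn hc)
    · have : B n = ∅ := by
        ext t
        simp only [hB, Set.mem_ofPred_eq, Set.mem_empty_iff_false, iff_false]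
        exact fun h => hc h.1
      rw [this, measure_empty]
      exact zero_le
  have hsum : ∑' n, volume (B (n + n1)) ≠ ⊤ := by
    refine ne_top_of_le_ne_top ?_ (ENNReal.tsum_le_tsum fun n => hBv (n + n1) (by omega))
    have hs : Summable fun n : ℕ => 2 * Cb ι * (1 / 2 : ℝ) ^ (n + n1) := by
      have h1 : (fun n : ℕ => 2 * Cb ι * (1 / 2 : ℝ) ^ (n + n1)) =
          fun n : ℕ => (2 * Cb ι * (1 / 2 : ℝ) ^ n1) * (1 / 2 : ℝ) ^ n := by
        funext n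
        rw [pow_add]
        ring
      rw [h1]
      exact (summable_geometric_of_lt_one (by norm_num) (by norm_num)).mul_left _
    exact hs.tsum_ofReal_ne_top
  filter_upwards [ae_eventually_notMem hsum] with t ht ht1
  obtain ⟨n0, hn0⟩ := eventually_atTop.1 ht
  filter_upwards [eventually_ge_atTop (n0 + n1)] with n hn hcov k z hz hbad
  obtain ⟨q, rfl⟩ : ∃ q, n = q + n1 := ⟨n - n1, by omega⟩
  exact hn0 q (by omega) ⟨hcov, ht1, k, z, hz, hbad⟩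

theorem ae_good2 (hb : 2 ≤ b) {R : ℝ} {g : (ι → ℝ) → ι → ℝ} (hg : Bz b R g)
    {M : (ι → ℝ) → (ι → ℝ) →L[ℝ] (ι → ℝ)} (hM : Measurable M) (d : ℕ) :
    ∀ᵐ t : ℝ, ∀ᵐ v ∂(volume.restrict (cube ι)), AllGood2 b g (M v) d t := by
  have hm : MeasurableSet {p : (ι → ℝ) × ℝ | AllGood2 b g (M p.1) d p.2} := by
    have h1 : {p : (ι → ℝ) × ℝ | AllGood2 b g (M p.1) d p.2} =
        {p : (ι → ℝ) × ℝ | |p.2| ≤ 1}ᶜ ∪ ⋃ n0 : ℕ, ⋂ n : ℕ, ⋂ _ : n0 ≤ n,
          ⋂ _ : CovAt b d (Cd (Fintype.card ι) d) n g, ⋂ k : ℕ,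
          ⋂ z : ι → ℕ, ⋂ _ : (∀ i, z i < b ^ k),
            {p : (ι → ℝ) × ℝ | p.2 ∈ bdn b (fM (zm (b ^ k) z g) (M p.1))
              (Ad (Fintype.card ι) d) n}ᶜ := by
      ext p
      simp only [AllGood2, Set.mem_ofPred_eq, Set.mem_union, Set.mem_compl_iff, Set.mem_iUnion,
        Set.mem_iInter, eventually_atTop, imp_iff_not_or]
    rw [h1]
    refine MeasurableSet.union ?_ ?_
    · exact (measurableSet_le (continuous_abs.measurable.comp measurable_snd)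
        measurable_const).compl
    · exact MeasurableSet.iUnion fun n0 => MeasurableSet.iInter fun n => MeasurableSet.iInter
        fun _ => MeasurableSet.iInter fun _ => MeasurableSet.iInter fun k =>
        MeasurableSet.iInter fun z => MeasurableSet.iInter fun _ => (bdn_joint _ hM _ n).compl
  exact (Measure.ae_ae_comm (μ := volume.restrict (cube ι)) (ν := (volume : Measure ℝ))
    (p := fun v t => AllGood2 b g (M v) d t) hm).1
    (Eventually.of_forall fun v => ae_good_fixed2 hb hg (M v) d)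

end Pool.Agent.V7H68.HZ
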