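import Pool.Agent.V7H68.HZ.Fll
import Pool.Agent.V7H68.HZ.Net2

/-!
Large entropy for one parameter and a class; the class of the zooms of a function.
-/

namespace Pool.Agent.V7H68.HZ

open Finset Real MeasureTheory SS MS UF Filter

set_option linter.unusedSectionVars false

variable {ι : Type} [Fintype ι] [DecidableEq ι] {b : ℕ}

theorem one_class [NeZero b] [Nonempty ι] (hb : 2 ≤ b) {R t : ℝ} {C : Set ((ι → ℝ) → ι → ℝ)}
    (hC : Zc b R C) (hR : 0 ≤ R) (ht : |t| ≤ 1) {A : ℕ} {hE : ℝ} (hE0 : 0 ≤ hE)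
    (hGR : ∀ ε : ℝ, 0 < ε → ∃ᶠ ℓ : ℕ in Filter.atTop, (∀ Z ∈ C, t ∉ bdn b Z A ℓ) ∧
      RC b C (hE + ε) ((Fintype.card ι + 1) * (A + 1) + 1) ℓ) {η : ℝ}
    (hη : 0 < η) : ∃ N0 : ℕ, ∀ N : ℕ, N0 ≤ N → ∀ Z ∈ C,
      (Fintype.card ι * log b - hE - η) * N ≤ En b (ft Z t) N := by
  have hbp : 0 < b := by omega
  have hb1 : (1:ℝ) < b := by exact_mod_cast (by omega : 1 < b)
  have hlb : 0 < log b := Real.log_pos hb1
  set m : ℝ := (Fintype.card ι : ℝ) with hm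
  have hm1 : 1 ≤ m := by
    rw [hm]
    exact_mod_cast Fintype.card_pos
  set K : ℝ := m * log b with hK
  have hK0 : 0 < K := by positivity
  set δ : ℝ := min (η / 3) K with hδ
  have hδ0 : 0 < δ := lt_min (by linarith) hK0
  have hδ1 : δ ≤ η / 3 := min_le_left _ _
  have hδ2 : δ ≤ K := min_le_right _ _
  have hτb : δ / (8 * m) ≤ log b := by
    rw [div_le_iff₀ (by positivity)]
    have e : log b * (8 * m) = 8 * K := by rw [hK]; ring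
    rw [e]
    linarith
  have hC' : Zc b (R + 2) C := ⟨fun Z hZ => (hC.bz Z hZ).mono (by linarith), hC.zoom⟩
  obtain ⟨r, hr0, hrK, hr1, hr2⟩ := hC'.exists_rate hbp ht hτb
  have hfull := full2 hb hC hR ht hE0 hGR hδ0 hr0 hr1 hr2
  obtain ⟨D, hD0, hD⟩ := hr2 δ hδ0
  obtain ⟨N0, hN0⟩ := exists_nat_gt (3 * D / η)
  refine ⟨N0 + 1, fun N hN Z hZ => ?_⟩
  have h1 := hD N
  have h2 := hC.psi_le_mem hbp ht hτb N hZ (Adm.nil)
  have h3 : Ee b t (δ / (8 * m)) N Z ∅ LinearMap.id = En b (ft Z t) N := by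
    unfold Ee
    rw [pf_id]
    simp
  rw [h3] at h2
  have hNr : 3 * D / η < N := lt_of_lt_of_le hN0 (by exact_mod_cast (by omega : N0 ≤ N))
  rw [div_lt_iff₀ hη] at hNr
  have hN0' : (0:ℝ) ≤ N := by positivity
  have h5 : (K - hE - δ - δ) * N ≤ (r - δ) * N := mul_le_mul_of_nonneg_right (by linarith) hN0'
  have h7 : η / 3 * N ≤ (η - δ - δ) * N := mul_le_mul_of_nonneg_right (by linarith) hN0'
  have h8 : (K - hE - δ - δ) * N = (K - hE - η) * N + (η - δ - δ) * N := by ring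
  linarith

/-- The zooms of every zoom of `g`, `j` levels further down, are covered by few small balls. -/
def RelAt (b c j : ℕ) (h : ℝ) (g : (ι → ℝ) → ι → ℝ) : Prop :=
  ∀ (k : ℕ) (z : ι → ℕ), (∀ i, z i < b ^ k) →
    ∃ s : Finset ((ι → ℝ) → ι → ℝ), (s.card : ℝ) ≤ (b:ℝ) ^ (h * j) ∧
      ∀ y : ι → ℕ, (∀ i, y i < b ^ j) → ∃ φ ∈ s, ∀ u ∈ cube ι,
        ‖zm (b ^ (k + j)) (fun i => b ^ j * z i + y i) g u - φ u‖ ≤ ((b:ℝ) ^ (c * j))⁻¹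

/-- The zooms of `g` with a linear map. -/
def Cz (b : ℕ) (g : (ι → ℝ) → ι → ℝ) (M : (ι → ℝ) →L[ℝ] (ι → ℝ)) : Set ((ι → ℝ) → ι → ℝ) :=
  {Z | ∃ (k : ℕ) (z : ι → ℕ), (∀ i, z i < b ^ k) ∧ Z = fM (zm (b ^ k) z g) M}

theorem Cz_zc (hb : 0 < b) {R RM : ℝ} {g : (ι → ℝ) → ι → ℝ} (hg : Bz b R g)
    {M : (ι → ℝ) →L[ℝ] (ι → ℝ)} (hM : ‖M‖ ≤ RM) : Zc b (R + RM) (Cz b g M) := by
  refine ⟨?_, ?_⟩
  · rintro Z ⟨k, z, hz, rfl⟩
    exact (hg.zoom hb hz).fM hb hM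
  · rintro Z ⟨k, z, hz, rfl⟩ q z' hz'
    refine ⟨k + q, _, low_lt hz hz', ?_⟩
    rw [zm_fM (pow_pos hb q) hz', zm_zm (by positivity) (by positivity) z z' hz', ← pow_add]

theorem Cz_rc (hb : 2 ≤ b) {g : (ι → ℝ) → ι → ℝ} {c ℓ : ℕ} (hℓ1 : 1 ≤ ℓ) {h : ℝ}
    (hrel : RelAt b (c + 1) ℓ h g) (M : (ι → ℝ) →L[ℝ] (ι → ℝ)) :
    RC b (Cz b g M) (h * log b) c ℓ := by
  classical
  have hbp : 0 < b := by omega
  have hb0 : (0:ℝ) < b := by exact_mod_cast hbp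
  have hb1 : (1:ℝ) < b := by exact_mod_cast (by omega : 1 < b)
  have hb2 : (2:ℝ) ≤ b := by exact_mod_cast hb
  have hlb : 0 < log b := Real.log_pos hb1
  rintro Z ⟨k, z, hz, rfl⟩
  obtain ⟨s, hs1, hs2⟩ := hrel k z hz
  set G : (ι → Fin (b ^ ℓ)) → (ι → ℝ) → ι → ℝ := fun w =>
    zm (b ^ (k + ℓ)) (fun i => b ^ ℓ * z i + dv w i) g with hG
  have hex : ∀ w : ι → Fin (b ^ ℓ), ∃ φ ∈ s, ∀ u ∈ cube ι,
      ‖G w u - φ u‖ ≤ ((b:ℝ) ^ ((c + 1) * ℓ))⁻¹ := fun w => hs2 (dv w) (dv_lt w)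
  choose ctr hctr1 hctr2 using hex
  have hrep : ∀ φ : (ι → ℝ) → ι → ℝ, ∃ w' : ι → Fin (b ^ ℓ),
      (∃ w, ctr w = φ) → ctr w' = φ := by
    intro φ
    by_cases hφ : ∃ w, ctr w = φ
    · obtain ⟨w, hw⟩ := hφ
      exact ⟨w, fun _ => hw⟩
    · exact ⟨fun _ => ⟨0, pow_pos hbp ℓ⟩, fun h => absurd h hφ⟩
  choose rep hrep using hrep
  refine ⟨fun w => fM (G (rep (ctr w))) M, fun w => ?_, ?_, fun w y hy => ?_⟩
  · exact ⟨k + ℓ, _, low_lt hz (dv_lt _), rfl⟩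
  · have h1 : (Set.range fun w => fM (G (rep (ctr w))) M).ncard ≤ s.card := by
      have h2 : (Set.range fun w => fM (G (rep (ctr w))) M) ⊆
          ((s.image fun φ => fM (G (rep φ)) M : Finset _) : Set _) := by
        rintro _ ⟨w, rfl⟩
        rw [Finset.coe_image]
        exact ⟨ctr w, hctr1 w, rfl⟩
      refine (Set.ncard_le_ncard h2 (Finset.finite_toSet _)).trans ?_
      rw [Set.ncard_coe_finset]
      exact Finset.card_image_le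
    have h2 : 0 < (Set.range fun w => fM (G (rep (ctr w))) M).ncard := by
      rw [Set.ncard_pos (Set.finite_range _)]
      exact ⟨_, ⟨fun _ => ⟨0, pow_pos hbp ℓ⟩, rfl⟩⟩
    have h3 : (((Set.range fun w => fM (G (rep (ctr w))) M).ncard : ℕ) : ℝ) ≤
        (b:ℝ) ^ (h * ℓ) := le_trans (by exact_mod_cast h1) hs1
    have h4 := Real.log_le_log (by exact_mod_cast h2) h3
    rw [Real.log_rpow hb0] at h4
    refine h4.trans (le_of_eq ?_)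
    ring
  · have hzoom : zm (b ^ ℓ) (dv w) (fM (zm (b ^ k) z g) M) = fM (G w) M := by
      rw [zm_fM (pow_pos hbp ℓ) (dv_lt w), zm_zm (by positivity) (by positivity) z (dv w)
        (dv_lt w), ← pow_add]
    rw [hzoom]
    change ‖fM (G w) M y - fM (G (rep (ctr w))) M y‖ ≤ _
    rw [fM_mem _ _ hy, fM_mem _ _ hy, add_sub_add_right_eq_sub]
    have h1 := hctr2 w y hy
    have h2 := hctr2 (rep (ctr w)) y hy
    rw [hrep (ctr w) ⟨w, rfl⟩, norm_sub_rev] at h2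
    have h3 := norm_add_le (G w y - ctr w y) (ctr w y - G (rep (ctr w)) y)
    rw [sub_add_sub_cancel] at h3
    have h4 : ((b:ℝ) ^ ((c + 1) * ℓ))⁻¹ + ((b:ℝ) ^ ((c + 1) * ℓ))⁻¹ ≤ ((b:ℝ) ^ (c * ℓ))⁻¹ := by
      have e1 : (b:ℝ) ^ ((c + 1) * ℓ) = (b:ℝ) ^ (c * ℓ) * (b:ℝ) ^ ℓ := by
        rw [add_mul, one_mul, pow_add]
      have e2 : (2:ℝ) ≤ (b:ℝ) ^ ℓ := hb2.trans (le_self_pow₀ hb1.le (by omega))
      rw [e1, mul_inv]
      have e3 : ((b:ℝ) ^ ℓ)⁻¹ ≤ 2⁻¹ := inv_anti₀ (by norm_num) e2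
      have e4 : (0:ℝ) < ((b:ℝ) ^ (c * ℓ))⁻¹ := by positivity
      nlinarith
    linarith

end Pool.Agent.V7H68.HZ
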